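import Pool.Agent.Helper77.HE.Trem

/-! Project HM, row HEARTM (helper77). -/

set_option autoImplicit false

namespace Pool.Agent.Helper77.HM

open Polynomial Finset Pool.Agent.Helper71.HN Pool.Agent.Helper71.JN Pool.Agent.Helper71.HE
  Pool.Agent.Helper77.HE

section
variable {F Ω : Type} [Field F] [Field Ω] [CharZero Ω] [Algebra F Ω] {I : Type} [Fintype I]
  {r : ℕ}

omit [CharZero Ω] in
theorem alg_le_one (D : SSF F Ω I r) (i : I) {z : Ω} (hz : IsIntegral F z) : D.nu i z ≤ 1 := by
  by_contra h
  have h1 : 1 < D.nu i z := not_le.1 h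
  have h2 : D.nu i z = Real.exp (Real.log (D.nu i z)) := (Real.exp_log (by linarith)).symm
  have h3 := aeval_large (D.nu i) (D.ult i) (D.F1 i) z (Real.log_pos h1) h2 (minpoly F z)
    (minpoly.ne_zero hz)
  rw [minpoly.aeval, map_zero] at h3
  exact absurd h3 (Real.exp_pos _).ne

theorem alg_eq_zero (D : SSF F Ω I r) (i : I) {z : Ω} (hz : IsIntegral F z) (h : D.nu i z < 1) :
    z = 0 := by
  by_contra h0
  have h1 := alg_le_one D i hz.inv
  have h2 : D.nu i z * D.nu i z⁻¹ = 1 := by
    rw [← map_mul, mul_inv_cancel₀ h0, map_one]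
  have h3 : 0 ≤ D.nu i z⁻¹ := (D.nu i).nonneg _
  have h4 : 0 ≤ D.nu i z := (D.nu i).nonneg _
  nlinarith

omit [CharZero Ω] in
theorem int_bot {x : Ω} (h : IsIntegral (⊥ : IntermediateField F Ω) x) : IsIntegral F x := by
  have h5 : Algebra.IsIntegral F (⊥ : IntermediateField F Ω) := by
    refine ⟨fun z => ?_⟩
    obtain ⟨a, ha⟩ := IntermediateField.mem_bot.1 z.2
    have h6 : z = algebraMap F (⊥ : IntermediateField F Ω) a := Subtype.ext ha.symm
    rw [h6]
    exact isIntegral_algebraMap
  exact isIntegral_trans x h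

end

/-- **(HEARTM)** -/
theorem HEARTM (hTREM : ST_TREM) : ST_HEARTM := by
  intro F Ω _ _ _ _ I _ r D g f m x y R c H
  classical
  have hmain : 4 * ∑ i, Real.log (D.nu i m) + ∑ i, c i < ∑ i, Real.log (max (D.nu i x) 1) := by
    have h1 : ∑ i, Real.log (max (D.nu i x) 1) = ∑ i, Real.log (max 1 (D.nu i x)) :=
      Finset.sum_congr rfl fun i _ => by rw [max_comm]
    rw [h1]
    exact H.main
  by_cases h1 : ∃ i, 1 < D.nu i x ∧ D.nu i (x - R i) < D.nu i x
  · obtain ⟨i, h2, h3⟩ := h1
    have hx : IsIntegral D.K x := algM D D.K (gskK D) g f m x y R c H.fm H.fd H.fs H.m0 H.mO H.xO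
      H.yO H.cu H.RR H.cR hmain
    exact hTREM F Ω I r D g f x y i (R i)
      { hg := H.hg
        fm := H.fm
        fd := H.fd
        fs := H.fs
        ic := H.ic
        cu := H.cu
        RR := H.RR i
        x1 := h2
        xR := h3 } hx
  · have h2 : ∀ i, 1 < D.nu i x → D.nu i x ≤ D.nu i (x - R i) := by
      intro i hi
      by_contra h3
      exact h1 ⟨i, hi, not_le.1 h3⟩
    set R' : I → Ω := fun i => if ∃ a : F, R i = algebraMap F Ω a then R i else 0 with hR'
    set c' : I → ℝ := fun i => if ∃ a : F, R i = algebraMap F Ω a then c i else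
      Real.log (max (D.nu i x) 1) with hc'
    have hc'c : ∀ i, c' i ≤ c i := by
      intro i
      rw [hc']
      dsimp only
      split_ifs with h3
      · exact le_rfl
      · have h4 : 0 ≤ c i := (H.c0 i).resolve_right h3
        rcases le_or_gt (D.nu i x) 1 with h5 | h5
        · rw [max_eq_right h5, Real.log_one]
          exact h4
        · rw [max_eq_left h5.le, Real.log_le_iff_le_exp (by linarith)]
          exact (h2 i h5).trans (H.cR i)
    have hx : IsIntegral (⊥ : IntermediateField F Ω) x := by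
      refine algM D ⊥ (gskF D) g f m x y R' c' H.fm H.fd H.fs H.m0 H.mO H.xO H.yO H.cu ?_ ?_ ?_
      · intro i
        rw [hR']
        dsimp only
        split_ifs with h3
        · obtain ⟨a, ha⟩ := h3
          rw [ha]
          exact (⊥ : IntermediateField F Ω).algebraMap_mem a
        · exact zero_mem _
      · intro i
        rw [hR', hc']
        dsimp only
        split_ifs with h3
        · exact H.cR i
        · rw [sub_zero, Real.exp_log (lt_of_lt_of_le one_pos (le_max_right _ _))]
          exact le_max_left _ _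
      · have h3 : ∑ i, c' i ≤ ∑ i, c i := Finset.sum_le_sum fun i _ => hc'c i
        linarith
    have hxF : IsIntegral F x := int_bot hx
    -- all sizes are `≤ 1`
    have h3 : ∑ i, Real.log (max (D.nu i x) 1) = 0 :=
      Finset.sum_eq_zero fun i _ => by rw [max_eq_right (alg_le_one D i hxF), Real.log_one]
    have hM0 : 0 ≤ ∑ i, Real.log (D.nu i m) := by
      have h4 := Pool.Agent.Helper70.JN.one_le_prod D H.mO H.m0
      have h5 : ∏ i, D.nu i m = Real.exp (∑ i, Real.log (D.nu i m)) := by
        rw [Real.exp_sum]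
        exact Finset.prod_congr rfl fun i _ => (Real.exp_log ((D.nu i).pos H.m0)).symm
      rw [h5] at h4
      exact Real.one_le_exp_iff.1 h4
    rw [h3] at hmain
    have h4 : ∑ i, c i < ∑ _i : I, (0 : ℝ) := by
      rw [Finset.sum_const_zero]
      linarith
    obtain ⟨i, -, h5⟩ := Finset.exists_lt_of_sum_lt h4
    obtain ⟨a, ha⟩ := (H.c0 i).resolve_left (not_le.2 h5)
    have h6 : D.nu i (x - algebraMap F Ω a) < 1 := by
      rw [← ha]
      exact lt_of_le_of_lt (H.cR i) (Real.exp_lt_one_iff.2 h5)
    have h7 : IsIntegral F (x - algebraMap F Ω a) := hxF.sub isIntegral_algebraMap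
    exact H.nx a (sub_eq_zero.1 (alg_eq_zero D i h7 h6))

end Pool.Agent.Helper77.HM
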