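import Pool.Agent.Helper77.HE.AlgM
import Pool.Agent.Helper71.HN.SheetO

/-!
Project HM (MP_2a8cc2_nt; to replace E): EVEN degree (or a point `e` with `F e ∈ Γ K ^ 2`), RATIONAL
points with denominators, closeness in the mean over the places, and also at the places where `z`
is not large.

`z` is near a quotient of sparse numbers at the place `v` (cost `max 1 |z - r|_v`), or near a number
`r` of small height (cost `|z - r|_v`); `m z` is `S`-integral. If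
`m ^ 4 ∏ cost_v ≤ ∏ max 1 |z|_v exp (- δ h)` then `h x ≤ C₁ H + C₂`.

The algebraicity is `Pool.Agent.Helper77.HE.algM` (proved). -/

set_option autoImplicit false

namespace Pool.Agent.Helper77.HM

open Polynomial Filter Finset Pool.Agent.Helper70.SUB Pool.Agent.Helper77.SUBK
  Pool.Agent.Helper70.SUBL Pool.Agent.Helper70.SUBW Pool.Agent.Helper71.JN Pool.Agent.Helper71.HN
  Pool.Agent.Helper71.HZ Pool.Agent.Helper71.HE Pool.Agent.Helper71.HO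

/-! ## M1. The abstract theorem -/

/-- the hypotheses of the trace argument: `HQ` of sheet E without `xO`, `yO` -/
structure HT {F Ω : Type} [Field F] [Field Ω] [Algebra F Ω] {I : Type} [Fintype I] {r : ℕ}
    (D : SSF F Ω I r) (g : ℕ) (f : F[X]) (x y : Ω) (i₀ : I) (R : Ω) : Prop where
  hg : 1 ≤ g
  fm : f.Monic
  fd : f.natDegree = 2 * g + 2
  fs : f.Separable
  ic : ∀ z : Ω, IsIntegral D.R z → z ∈ D.O
  cu : y ^ 2 = aeval x f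
  RR : R ∈ D.K
  x1 : 1 < D.nu i₀ x
  xR : D.nu i₀ (x - R) < D.nu i₀ x

/-- (TREM) `Helper28.HE.TRE` without `xO`, `yO` (which are not used there) -/
def ST_TREM : Prop := ∀ (F Ω : Type) [Field F] [Field Ω] [CharZero Ω] [Algebra F Ω] (I : Type)
  [Fintype I] (r : ℕ) (D : SSF F Ω I r) (g : ℕ) (f : F[X]) (x y : Ω) (i₀ : I) (R : Ω),
  HT D g f x y i₀ R → IsIntegral D.K x → False

/-- the hypotheses: `R i = 0`, `c i = log max 1 (nu i x)` if nothing is known at the place `i`;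
`c i < 0` is allowed if `R i` is slow -/
structure HM {F Ω : Type} [Field F] [Field Ω] [Algebra F Ω] {I : Type} [Fintype I] {r : ℕ}
    (D : SSF F Ω I r) (g : ℕ) (f : F[X]) (m x y : Ω) (R : I → Ω) (c : I → ℝ) : Prop where
  hg : 1 ≤ g
  fm : f.Monic
  fd : f.natDegree = 2 * g + 2
  fs : f.Separable
  ic : ∀ z : Ω, IsIntegral D.R z → z ∈ D.O
  m0 : m ≠ 0
  mO : m ∈ D.O
  xO : m * x ∈ D.O
  yO : m ^ (g + 1) * y ∈ D.O
  cu : y ^ 2 = aeval x f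
  nx : ∀ a : F, x ≠ algebraMap F Ω a
  RR : ∀ i, R i ∈ D.K
  cR : ∀ i, D.nu i (x - R i) ≤ Real.exp (c i)
  c0 : ∀ i, 0 ≤ c i ∨ ∃ a : F, R i = algebraMap F Ω a
  main : 4 * ∑ i, Real.log (D.nu i m) + ∑ i, c i < ∑ i, Real.log (max 1 (D.nu i x))

/-- (HEARTM) (algM, TREM). If `1 < nu i x`, `nu i (x - R i) < nu i x` for some `i`: algM for `D.K`
and TREM. Otherwise algM for `⊥` (`gskF`), `R' i = R i` if `R i ∈ F` and `0` otherwise, `c' i = c i`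
resp. `log max 1 (nu i x) ≤ c i`: `x` is integral over `F`; so `nu i x ≤ 1` for all `i`, `∑ c i < 0`
(`∑ log (nu i m) ≥ 0`), `c i < 0` for some `i`, `nu i (x - R i) < 1` with `R i ∈ F`; as
`x - R i` is algebraic over `F`, it is `0` (otherwise its inverse would be of size `≤ 1`) -/
def ST_HEARTM : Prop := ∀ (F Ω : Type) [Field F] [Field Ω] [CharZero Ω] [Algebra F Ω] (I : Type)
  [Fintype I] (r : ℕ) (D : SSF F Ω I r) (g : ℕ) (f : F[X]) (m x y : Ω) (R : I → Ω) (c : I → ℝ),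
  ¬ HM D g f m x y R c

/-! ## M2. Application -/

/-- (BRGM) from the sequences to the abstract part, as `Helper71.HO.BRGO` (and `BRGE` for the
polynomial). `R (o, σ)` = the class of `ρ o σ`, in `D.K` since it is slow (if `(o, σ) ∈ V`) or
`p o σ / q o σ`; `0` at the places above `S \ S₀`. `c (o, σ) = log max (nu (x - R)) b`, `b = 1` if
`(o, σ) ∉ V` and `b = exp (- A)` if `(o, σ) ∈ V`; `c log X ≤ log u + ε log X` for almost all `j` -/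
def ST_BRGM : Prop := ∀ (M : Type) [Field M] [NumberField M] [IsGalois ℚ M] (S S₀ : Finset ℕ)
  (P : PF S M) (φ : Ultrafilter ℕ) (V : Set (Option ℕ × (M ≃ₐ[ℚ] M))) (g : ℕ) (a : ℕ → ℕ → M)
  (m : ℕ → ℕ) (x y : ℕ → M) (X : ℕ → ℝ) (p q ρ : Option ℕ → (M ≃ₐ[ℚ] M) → ℕ → M)
  (u : Option ℕ → (M ≃ₐ[ℚ] M) → ℕ → ℝ) (A η : ℝ), (∀ p ∈ S, p.Prime) →
  S₀ ⊆ S → 1 ≤ g → 0 < η → Tendsto X (φ : Filter ℕ) atTop →
  (∀ o ∈ plc S₀, ∀ σ, (o, σ) ∉ V → SpM P φ X (p o σ) ∧ SpM P φ X (q o σ)) →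
  (∀ o ∈ plc S₀, ∀ σ, (o, σ) ∈ V → Slw P φ X (ρ o σ)) →
  (∀ i, i < 2 * g + 2 → Slw P φ X (a i)) → IntT S₀ φ X (fun j => (m j : M) * x j) →
  IntT S₀ φ X (fun j => (m j : M) ^ (g + 1) * y j) → ¬ Slw P φ X x →
  (∀ᶠ j in (φ : Filter ℕ), (polD M (2 * g + 2) (fun i => a i j)).Separable ∧
    y j ^ 2 = (polD M (2 * g + 2) (fun i => a i j)).eval (x j) ∧ m j ≠ 0 ∧
    (m j : ℝ) ≤ X j ^ A ∧
    (∀ o ∈ plc S, ∀ σ : M ≃ₐ[ℚ] M, P.nv o (σ (x j)) ≤ X j ^ A) ∧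
    (∀ o ∈ plc S₀, ∀ σ : M ≃ₐ[ℚ] M, X j ^ (-A) ≤ u o σ j ∧
      P.nv o (σ (x j - ρ o σ j)) ≤ u o σ j ∧
      ((o, σ) ∉ V → 1 ≤ u o σ j ∧ q o σ j ≠ 0 ∧ ρ o σ j = p o σ j / q o σ j)) ∧
    4 * (Fintype.card (M ≃ₐ[ℚ] M) : ℝ) * Real.log (m j) +
      ∑ o ∈ plc S₀, ∑ σ : M ≃ₐ[ℚ] M, Real.log (u o σ j) + η * Real.log (X j) ≤
      ∑ o ∈ plc S₀, ∑ σ : M ≃ₐ[ℚ] M, Real.log (max 1 (P.nv o (σ (x j))))) → False

/-- (T1M) the theorem over `M` (SLW, SPH, BRGM), as `Helper34.HO.T1O` (and `Helper2.HE.T1E` for the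
monic form: `x' = x`, `y' = y / sq`, `a i = F_i / F_(2 g + 2)`). `T` is the scale, `X = exp T`;
counterexamples with `C = j + 1`: `exp (κ (H + 1))` is slow; `x` is not slow by
`¬ HBZ P.emb (exp (T / B)) x` -/
def ST_T1M : Prop := ∀ (M : Type) [Field M] [NumberField M] [IsGalois ℚ M] (S S₀ : Finset ℕ)
  (P : PF S M) (V : Set (Option ℕ × (M ≃ₐ[ℚ] M))) (t g : ℕ) (κ δ B : ℝ), (∀ p ∈ S, p.Prime) →
  S₀ ⊆ S → 1 ≤ g → 0 < δ → 0 < B →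
  ∃ C : ℝ, 0 < C ∧ ∀ (F : M[X]) (x y sq : M) (H T : ℝ) (m : ℕ)
    (c d a b : Option ℕ → (M ≃ₐ[ℚ] M) → Fin t → M) (ρ : Option ℕ → (M ≃ₐ[ℚ] M) → M)
    (u : Option ℕ → (M ≃ₐ[ℚ] M) → ℝ), 0 ≤ H → F.natDegree = 2 * g + 2 → F.Separable →
    y ^ 2 = F.eval x → F.coeff (2 * g + 2) = sq ^ 2 →
    (∀ i, HBZ P.emb (Real.exp (κ * (H + 1))) (F.coeff i)) → m ≠ 0 → SI S₀ ((m : M) * x) →
    (m : ℝ) ≤ Real.exp (B * T) →
    (∀ o ∈ plc S, ∀ σ : M ≃ₐ[ℚ] M, P.nv o (σ x) ≤ Real.exp (B * T)) →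
    ¬ HBZ P.emb (Real.exp (T / B)) x →
    (∀ o ∈ plc S₀, ∀ σ, Real.exp (-(B * T)) ≤ u o σ ∧ P.nv o (σ (x - ρ o σ)) ≤ u o σ ∧
      ((o, σ) ∈ V → HBZ P.emb (Real.exp (κ * (H + 1))) (ρ o σ)) ∧
      ((o, σ) ∉ V → 1 ≤ u o σ ∧ (∀ i, SV S (a o σ i)) ∧ (∀ i, SV S (b o σ i)) ∧
        (∀ i, HBZ P.emb (Real.exp (κ * (H + 1))) (c o σ i)) ∧
        (∀ i, HBZ P.emb (Real.exp (κ * (H + 1))) (d o σ i)) ∧
        HBZ P.emb (Real.exp (B * T)) (∑ i, c o σ i * a o σ i) ∧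
        HBZ P.emb (Real.exp (B * T)) (∑ i, d o σ i * b o σ i) ∧
        ∑ i, d o σ i * b o σ i ≠ 0 ∧
        ρ o σ = (∑ i, c o σ i * a o σ i) / ∑ i, d o σ i * b o σ i)) →
    4 * (Fintype.card (M ≃ₐ[ℚ] M) : ℝ) * Real.log m +
      ∑ o ∈ plc S₀, ∑ σ : M ≃ₐ[ℚ] M, Real.log (u o σ) + δ * T ≤
      ∑ o ∈ plc S₀, ∑ σ : M ≃ₐ[ℚ] M, Real.log (max 1 (P.nv o (σ x))) →
    T ≤ C * (H + 1)

/-- `u` bounds the distance of `z` at the place `o` of `ℚ` extended by `τ` to an element `r` of `K`;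
either `r` has small height, or `r` is a quotient of sparse numbers and `u ≥ 1` -/
def Near {K : Type} [Field K] (h : K → ℝ) (Γ : Subgroup Kˣ) (t : ℕ) (L N : ℝ)
    (w : ℕ → AbsoluteValue ℂ ℝ) (z : K) (o : Option ℕ) (τ : K →+* ℂ) (u : ℝ) : Prop :=
  0 < u ∧ ∃ r : K, pv w o (τ (z - r)) ≤ u ∧ (h r ≤ L ∨ (1 ≤ u ∧ ∃ p q : K,
    SumOf h Γ t L p ∧ SumOf h Γ t L q ∧ h p ≤ N ∧ h q ≤ N ∧ q ≠ 0 ∧ r = p / q))

/-- (FINM) the final theorem (T1M, SUBE, HCO, HTT, FLDE, EMB), as `Helper2.HO.FINO` and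
`Helper12.HE.FINE`. T1M with `S₀ = S`, `S = S'` of FLDE, all `V`, `T = h x`, for `F`, `z = x`, resp.
for `G`, `z` (SUBE); `sq = ρ * b`, `ρ ^ 2 = γ`. We may suppose `h x ≥ C' (H + 1)`, so
`h x / 2 ≤ h z ≤ 2 h x`. If `u < exp (- B' h x)` for some place then `z = r` (Liouville: otherwise
`pv w o (τ (z - r)) ≥ exp (- C h (z - r))`), `h z ≤ κ (H + 1)`; so `u ≥ exp (- B' h x)` and
`log m ≤ B'' h x`. If `HBZ P.emb (exp (T / B)) (i z)` then `h z ≤ C (T / B) + C` (HTT), impossible for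
`B` large. With EMB `∑_σ = (card / [K : ℚ]) ∑_τ` in the main inequality -/
def ST_FINM : Prop := ∀ (K : Type) [Field K] [NumberField K] (h : K → ℝ), IsHt K h →
  ∀ (S : Finset ℕ) (w : ℕ → AbsoluteValue ℂ ℝ), Ext S w →
  ∀ (Γ : Subgroup Kˣ) (t d : ℕ) (κ δ B : ℝ), Γ.FG → 3 ≤ d → 0 < δ →
    ∃ C₁ C₂ : ℝ, 0 < C₁ ∧ 0 < C₂ ∧ ∀ F : K[X], F.natDegree = d → F.Separable →
      ∀ x y : K, y ^ 2 = F.eval x → ∀ H : ℝ, (∀ i, h (F.coeff i) ≤ H) →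
        ∀ z : K, ((Even d ∧ SqClass Γ (F.coeff d) ∧ x = z) ∨
          ∃ e : K, h e ≤ κ * (H + 1) ∧ F.eval e ≠ 0 ∧ SqClass Γ (F.eval e) ∧ z ≠ 0 ∧
            x = e + 1 / z) →
        ∀ (m : ℕ) (u : Option ℕ → (K →+* ℂ) → ℝ), m ≠ 0 → SI S ((m : K) * z) →
          (∀ o ∈ plc S, ∀ τ, Near h Γ t (κ * (H + 1)) (B * h x) w z o τ (u o τ)) →
          4 * (Module.finrank ℚ K : ℝ) * Real.log m +
            ∑ o ∈ plc S, ∑ τ : K →+* ℂ, Real.log (u o τ) + δ * h x ≤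
            ∑ o ∈ plc S, ∑ τ : K →+* ℂ, Real.log (max 1 (pv w o (τ z))) →
          h x ≤ C₁ * H + C₂

end Pool.Agent.Helper77.HM
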