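import Pool.Agent.Helper71.HN.OIC
import Pool.Agent.Helper77.HE.SheetM

/-! Project HM: the field of slow elements is algebraically closed in `Om` (helper77, after the row
OIC of helper71). -/

set_option autoImplicit false

namespace Pool.Agent.Helper77.HM

open Polynomial Filter Finset Pool.Agent.Helper70.SUB Pool.Agent.Helper77.SUBK
  Pool.Agent.Helper70.SUBL Pool.Agent.Helper70.SUBW Pool.Agent.Helper71.JN Pool.Agent.Helper66.JN
  Pool.Agent.Helper71.HN

/-- a root of a monic equation with slow coefficients is slow -/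
theorem slw_root {M : Type} [Field M] [NumberField M] [IsGalois ℚ M] {S : Finset ℕ} {P : PF S M}
    {φ : Ultrafilter ℕ} {X : ℕ → ℝ} (hX : Tendsto X (φ : Filter ℕ) atTop) (n : ℕ)
    (C : ℕ → ℕ → M) (Z : ℕ → M) (hC : ∀ k, Slw P φ X (C k))
    (heq : ∀ᶠ j in (φ : Filter ℕ), Z j ^ n + ∑ k ∈ range n, C k j * Z j ^ k = 0) :
    Slw P φ X Z := by
  classical
  intro ε hε
  have hn1 : (0 : ℝ) < (n : ℝ) + 1 := by positivity
  have h1 : ∀ᶠ j in (φ : Filter ℕ), ∀ k ∈ range n, ∃ E : ℕ, E ≠ 0 ∧
      (E : ℝ) ≤ X j ^ (ε / (n + 1)) ∧ IsIntegral ℤ ((E : M) * C k j) := by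
    rw [Filter.eventually_all_finset]
    intro k _
    filter_upwards [hC k _ (div_pos hε hn1)] with j h
    obtain ⟨E, a1, a2, a3, -⟩ := h
    exact ⟨E, a1, a2, a3⟩
  have h1' : ∀ᶠ j in (φ : Filter ℕ), ∀ k ∈ range n, ∀ σ : M ≃ₐ[ℚ] M,
      P.nv none (σ (C k j)) ≤ X j ^ (ε / 2) := by
    rw [Filter.eventually_all_finset]
    intro k _
    filter_upwards [hC k _ (half_pos hε)] with j h
    obtain ⟨E, -, -, -, a4⟩ := h
    exact a4
  have h1'' : ∀ᶠ j in (φ : Filter ℕ), (n : ℝ) + 1 ≤ X j ^ (ε / 2) :=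
    ((tendsto_rpow_atTop (half_pos hε)).comp hX).eventually_ge_atTop _
  filter_upwards [h1, h1', h1'', heq, hX.eventually_ge_atTop 1] with j h2 h2' h2'' h3 h4
  choose! E hE0 hE1 hE2 using h2
  set Et : ℕ := ∏ k ∈ range n, E k with hEt
  refine ⟨Et, Finset.prod_ne_zero_iff.2 hE0, ?_, ?_, ?_⟩
  · have h5 : (Et : ℝ) ≤ ∏ _k ∈ range n, X j ^ (ε / (n + 1)) := by
      rw [hEt]
      push_cast
      exact Finset.prod_le_prod (fun _ _ => Nat.cast_nonneg _) hE1
    rw [Finset.prod_const, Finset.card_range, ← Real.rpow_natCast,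
      ← Real.rpow_mul (by linarith)] at h5
    refine h5.trans (Real.rpow_le_rpow_of_exponent_le h4 ?_)
    rw [div_mul_eq_mul_div, div_le_iff₀ hn1]
    nlinarith
  · refine int_of_monic n (fun k => (Et : M) ^ (n - k) * C k j) ?_ _ ?_
    · intro k hk
      have hkn := Finset.mem_range.1 hk
      obtain ⟨b, hb⟩ : ∃ b : ℕ, Et = E k * b := Finset.dvd_prod_of_mem E hk
      have e : (Et : M) ^ (n - k) * C k j =
          ((Et : M) ^ (n - k - 1) * (b : M)) * ((E k : M) * C k j) := by
        have h5 : n - k = (n - k - 1) + 1 := by omega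
        rw [h5, pow_succ, Nat.add_sub_cancel]
        nth_rewrite 2 [hb]
        push_cast
        ring
      show IsIntegral ℤ ((Et : M) ^ (n - k) * C k j)
      rw [e]
      refine IsIntegral.mul ?_ (hE2 k hk)
      have h7 : (Et : M) ^ (n - k - 1) * (b : M) =
          algebraMap ℤ M (((Et ^ (n - k - 1) * b : ℕ)) : ℤ) := by
        rw [eq_intCast, Int.cast_natCast]
        push_cast
        ring
      rw [h7]
      exact isIntegral_algebraMap
    · have h7 := congrArg (fun t => (Et : M) ^ n * t) h3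
      simp only [mul_zero] at h7
      rw [← h7, mul_add, Finset.mul_sum]
      congr 1
      · rw [mul_pow]
      · refine Finset.sum_congr rfl fun k hk => ?_
        have hkn := Finset.mem_range.1 hk
        have h8 : (Et : M) ^ n = (Et : M) ^ (n - k) * (Et : M) ^ k := by
          rw [← pow_add]
          congr 1
          omega
        rw [h8, mul_pow]
        ring
  · intro σ
    set T := P.nv none (σ (Z j)) with hT
    have hv : (none : Option ℕ) ∈ plc S := mem_none
    have hT0 : 0 ≤ T := P.nn none _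
    by_cases h6 : T ≤ 1
    · exact h6.trans (Real.one_le_rpow h4 hε.le)
    have h6' : 1 ≤ T := (not_le.1 h6).le
    have hn0 : n ≠ 0 := by
      intro h0
      rw [h0] at h3
      simp at h3
    have h7 : σ (Z j) ^ n = -∑ k ∈ range n, σ (C k j) * σ (Z j) ^ k := by
      have h8 := congrArg σ h3
      rw [map_add, map_pow, map_sum, map_zero] at h8
      rw [eq_neg_iff_add_eq_zero, ← h8]
      congr 1
      exact Finset.sum_congr rfl fun k _ => by rw [map_mul, map_pow]
    have h8 : T ^ n ≤ ∑ k ∈ range n, X j ^ (ε / 2) * T ^ (n - 1) := by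
      have h9 : T ^ n = P.nv none (∑ k ∈ range n, σ (C k j) * σ (Z j) ^ k) := by
        rw [hT, ← PF.pow P hv, h7, PF.neg P hv]
      rw [h9]
      refine (PF.sum_le P hv _ _).trans (Finset.sum_le_sum fun k hk => ?_)
      rw [P.mul none hv, PF.pow P hv]
      refine mul_le_mul (h2' k hk σ) ?_ (pow_nonneg (P.nn none _) _) (by positivity)
      exact pow_le_pow_right₀ h6' (by have := Finset.mem_range.1 hk; omega)
    rw [Finset.sum_const, Finset.card_range, nsmul_eq_mul] at h8
    have h9 : T ^ n = T * T ^ (n - 1) := by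
      rw [← pow_succ']
      congr 1
      omega
    have h10 : 0 < T ^ (n - 1) := pow_pos (by linarith) _
    have h11 : T ≤ n * X j ^ (ε / 2) := by
      rw [h9, ← mul_assoc] at h8
      exact le_of_mul_le_mul_right h8 h10
    have h12 : X j ^ ε = X j ^ (ε / 2) * X j ^ (ε / 2) := by
      rw [← Real.rpow_add (by linarith)]
      congr 1
      ring
    rw [h12]
    exact h11.trans (mul_le_mul_of_nonneg_right (by linarith) (by positivity))

/-- elements of `Om` which are integral over `Sl` are slow -/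
theorem slw_int (hOMG : ST_OMG) {M : Type} [Field M] [NumberField M] [IsGalois ℚ M]
    {S : Finset ℕ} {P : PF S M} {φ : Ultrafilter ℕ} {X : ℕ → ℝ} (hS : ∀ p ∈ S, p.Prime)
    (hX : Tendsto X (φ : Filter ℕ) atTop) (Z : ℕ → M) (z : Om P φ X)
    (hZ : gm φ Z = (z : UP M φ)) (hz : IsIntegral (Sl P φ X) z) : Slw P φ X Z := by
  classical
  obtain ⟨g1, g2, g3, g4, g5, g6, g7, g8⟩ := hOMG M S P φ X hS hX
  obtain ⟨q, hq, hq0⟩ := hz
  set n := q.natDegree with hn
  have hseq : ∀ k : ℕ, ∃ C : ℕ → M, Slw P φ X C ∧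
      gm φ C = (((q.coeff k : Sl P φ X) : Om P φ X) : UP M φ) := fun k =>
    (g3 _).1 (q.coeff k).2
  choose C hC hC' using hseq
  refine slw_root hX n C Z hC ?_
  have h1 : z ^ n + ∑ k ∈ range n, ((q.coeff k : Sl P φ X) : Om P φ X) * z ^ k = 0 := by
    rw [← hq0, eval₂_eq_sum_range, Finset.sum_range_succ, ← hn]
    have h2 : q.coeff n = 1 := hq.coeff_natDegree
    rw [h2, map_one, one_mul, add_comm]
    rfl
  have h2 := congrArg (fun t : Om P φ X => (t : UP M φ)) h1
  push_cast at h2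
  rw [← hZ] at h2
  have h3 : ∀ k ∈ range n, (((q.coeff k : Sl P φ X) : Om P φ X) : UP M φ) * gm φ Z ^ k =
      gm φ (fun j => C k j * Z j ^ k) := by
    intro k _
    rw [← hC' k]
    rfl
  rw [Finset.sum_congr rfl h3] at h2
  have h4 : ∑ k ∈ range n, gm φ (fun j => C k j * Z j ^ k) =
      gm φ (fun j => ∑ k ∈ range n, C k j * Z j ^ k) := by
    have h5 := map_sum (Germ.coeRingHom (φ : Filter ℕ) : (ℕ → M) →+* Germ (φ : Filter ℕ) M)
      (fun k => fun j => C k j * Z j ^ k) (range n)
    refine h5.symm.trans ?_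
    show gm φ (∑ k ∈ range n, fun j => C k j * Z j ^ k) = _
    congr 1
    funext j
    rw [Finset.sum_apply]
  rw [h4] at h2
  have h6 : gm φ (fun j => Z j ^ n + ∑ k ∈ range n, C k j * Z j ^ k) =
      gm φ (fun _ => (0 : M)) := h2
  rwa [Pool.Agent.Helper47.SUBW.gm_eq] at h6

end Pool.Agent.Helper77.HM
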