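import Pool.Agent.Helper77.HE.Alge
import Pool.Agent.Helper71.HN.SheetE

/-! Project HE, row ALGE (helper77). -/

set_option autoImplicit false

namespace Pool.Agent.Helper77.HE

/-- **(ALGE)** of sheet E (`PADE` is proved in `Pool.Agent.Helper77.HE.Pade` in a form for one
place) -/
theorem ALGEE : Pool.Agent.Helper71.HE.ST_ALGE := by
  intro F Ω _ _ _ _ I _ r D g f x y i₀ R h
  exact ALGE F Ω I r D g f x y R i₀ h.fm h.fd h.fs h.xO h.yO h.cu h.RR h.x1 h.xR

end Pool.Agent.Helper77.HE
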