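import Pool.Agent.Helper77.HE.Flag
import Pool.Agent.Helper71.HN.SheetX

/-! Row FLG of sheet X (MP_2a8cc2_nt). -/

set_option autoImplicit false

namespace Pool.Agent.Helper77.HE

theorem FLG : Pool.Agent.Helper71.HX.ST_FLG := by
  intro F Ω _ _ _ K κ _ v e W s hW hs
  exact flag (K := K) v e W s hW hs

end Pool.Agent.Helper77.HE
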