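import Pool.Agent.Helper77.HE.SheetP2

/-!
Project HG3 / HP3 (MP_2a8cc2_nt): the final forms of G2 and P2 with `ε * h x` instead of
`κ * (H + 1)` for the heights of all slow data (coefficients of the sums, of `G`, the point `e`), where
`ε > 0` is given by the theorem. (If `h x > C (H + 1)` with `C ≥ κ / ε` then `κ (H + 1) ≤ ε h x`: so
this contains the former forms.) The rows BRGG2 / BRGP2 are used unchanged. -/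

set_option autoImplicit false

namespace Pool.Agent.Helper77.HG3

open Polynomial Filter Finset Pool.Agent.Helper70.SUB Pool.Agent.Helper77.SUBK
  Pool.Agent.Helper70.SUBL Pool.Agent.Helper70.SUBW Pool.Agent.Helper71.JN Pool.Agent.Helper71.HN
  Pool.Agent.Helper71.HZ Pool.Agent.Helper71.HE Pool.Agent.Helper71.HO Pool.Agent.Helper77.HE
  Pool.Agent.Helper77.HM Pool.Agent.Helper71.HX Pool.Agent.Helper71.HP Pool.Agent.Helper77.HP2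

/-- (T1G3) by contradiction (BRGG2): data with `ε = 1 / (j + 1)` and `T > j + 1` for every `j`;
`X = exp T`, so `HBZ (exp (T / (j + 1)))` is slow -/
def ST_T1G3 : Prop := ∀ (M : Type) [Field M] [NumberField M] [IsGalois ℚ M] (S S₀ : Finset ℕ)
  (P : PF S M) (k : Option ℕ → (M ≃ₐ[ℚ] M) → ℕ) (t g : ℕ) (δ θ B : ℝ), (∀ p ∈ S, p.Prime) →
  S₀ ⊆ S → 1 ≤ g → 0 < δ → 0 < θ → 0 < B →
  ∃ C ε : ℝ, 0 < C ∧ 0 < ε ∧ ∀ (F : M[X]) (x y sq : M) (T : ℝ) (m : ℕ)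
    (c d a b : Option ℕ → (M ≃ₐ[ℚ] M) → Fin t → M) (e : Option ℕ → (M ≃ₐ[ℚ] M) → ℕ → M)
    (s : Option ℕ → (M ≃ₐ[ℚ] M) → ℝ), F.natDegree = 2 * g + 2 → F.Separable →
    y ^ 2 = F.eval x → F.coeff (2 * g + 2) = sq ^ 2 →
    (∀ i, HBZ P.emb (Real.exp (ε * T)) (F.coeff i)) → m ≠ 0 → SI S₀ ((m : M) * x) →
    (m : ℝ) ≤ Real.exp (B * T) →
    (∀ o ∈ plc S, ∀ σ : M ≃ₐ[ℚ] M, P.nv o (σ x) ≤ Real.exp (B * T)) →
    ¬ HBZ P.emb (Real.exp (T / B)) x →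
    (∀ o ∈ plc S₀, ∀ σ, -(B * T) ≤ s o σ ∧
      (1 ≤ k o σ → (∀ i, HBZ P.emb (Real.exp (ε * T)) (e o σ i)) ∧
        P.nv o (σ ((polD M (k o σ) (e o σ)).eval x)) ≤
          Real.exp (k o σ * min (s o σ) (2 * s o σ))) ∧
      (k o σ = 0 → (0 ≤ s o σ ∨ Real.exp (θ * T) ≤ P.nv o (σ x)) ∧
        (∀ i, SV S (a o σ i)) ∧ (∀ i, SV S (b o σ i)) ∧
        (∀ i, HBZ P.emb (Real.exp (ε * T)) (c o σ i)) ∧
        (∀ i, HBZ P.emb (Real.exp (ε * T)) (d o σ i)) ∧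
        HBZ P.emb (Real.exp (B * T)) (∑ i, c o σ i * a o σ i) ∧
        HBZ P.emb (Real.exp (B * T)) (∑ i, d o σ i * b o σ i) ∧
        ∑ i, d o σ i * b o σ i ≠ 0 ∧
        P.nv o (σ (x - (∑ i, c o σ i * a o σ i) / ∑ i, d o σ i * b o σ i)) ≤
          Real.exp (s o σ))) →
    (Fintype.card (M ≃ₐ[ℚ] M) : ℝ) * Real.log m +
      ∑ o ∈ plc S₀, ∑ σ : M ≃ₐ[ℚ] M, s o σ + δ * T ≤
      ∑ o ∈ plc S₀, ∑ σ : M ≃ₐ[ℚ] M, Real.log (max 1 (P.nv o (σ x))) →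
    T ≤ C

/-- (FING3) the final theorem; `h x > C₁ (H + 1)` gives `H ≤ η h x`, so all slow data have height
`≤ ε T`, `T = h x` (for `G = z ^ (2 g + 2) F(e + 1/z)`: `htay` with `κ = 1`, `η h x` instead of `H`) -/
def ST_FING3 : Prop := ∀ (K : Type) [Field K] [NumberField K] (h : K → ℝ), IsHt K h →
  ∀ (S : Finset ℕ) (w : ℕ → AbsoluteValue ℂ ℝ), Ext S w →
  ∀ (Γ : Subgroup Kˣ) (t n d : ℕ) (δ B : ℝ), Γ.FG → 3 ≤ d → 0 < δ →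
    ∃ ε C₁ C₂ : ℝ, 0 < ε ∧ 0 < C₁ ∧ 0 < C₂ ∧ ∀ F : K[X], F.natDegree = d → F.Separable →
      ∀ x y : K, y ^ 2 = F.eval x → ∀ H : ℝ, (∀ i, h (F.coeff i) ≤ H) →
        ∀ z : K, ((Even d ∧ SqClass Γ (F.coeff d) ∧ x = z) ∨
          ∃ e : K, h e ≤ ε * h x ∧ F.eval e ≠ 0 ∧ SqClass Γ (F.eval e) ∧ z ≠ 0 ∧
            x = e + 1 / z) →
        ∀ (m : ℕ) (s : Option ℕ → (K →+* ℂ) → ℝ), m ≠ 0 → SI S ((m : K) * z) →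
          (∀ o ∈ plc S, ∀ τ, -(B * h x) ≤ s o τ ∧
            NearG2 h Γ t n (ε * h x) (B * h x) (δ * h x) w z o τ (s o τ)) →
          (Module.finrank ℚ K : ℝ) * Real.log m +
            ∑ o ∈ plc S, ∑ τ : K →+* ℂ, s o τ + δ * h x ≤
            ∑ o ∈ plc S, ∑ τ : K →+* ℂ, Real.log (max 1 (pv w o (τ z))) →
          h x ≤ C₁ * H + C₂

/-- (T1P3) as `ST_T1P2` (BRGP2) -/
def ST_T1P3 : Prop := ∀ (M : Type) [Field M] [NumberField M] [IsGalois ℚ M] (S S₀ : Finset ℕ)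
  (P : PF S M) (k : Option ℕ → (M ≃ₐ[ℚ] M) → ℕ) (t g : ℕ) (δ θ B : ℝ), (∀ p ∈ S, p.Prime) →
  S₀ ⊆ S → 1 ≤ g → 0 < δ → 0 < θ → 0 < B →
  ∃ C ε : ℝ, 0 < C ∧ 0 < ε ∧ ∀ (F : M[X]) (x y : M) (T : ℝ) (m : ℕ)
    (c d a b : Option ℕ → (M ≃ₐ[ℚ] M) → Fin t → M) (e : Option ℕ → (M ≃ₐ[ℚ] M) → ℕ → M)
    (s : Option ℕ → (M ≃ₐ[ℚ] M) → ℝ), F.natDegree = 2 * g + 1 → F.Separable →
    y ^ 2 = F.eval x →
    (∀ i, HBZ P.emb (Real.exp (ε * T)) (F.coeff i)) → m ≠ 0 → SI S₀ ((m : M) * x) →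
    (m : ℝ) ≤ Real.exp (B * T) →
    (∀ o ∈ plc S, ∀ σ : M ≃ₐ[ℚ] M, P.nv o (σ x) ≤ Real.exp (B * T)) →
    ¬ HBZ P.emb (Real.exp (T / B)) x →
    (∀ o ∈ plc S₀, ∀ σ, -(B * T) ≤ s o σ ∧
      (1 ≤ k o σ → (∀ i, HBZ P.emb (Real.exp (ε * T)) (e o σ i)) ∧
        P.nv o (σ ((polD M (k o σ) (e o σ)).eval x)) ≤
          Real.exp (k o σ * min (s o σ) (2 * s o σ))) ∧
      (k o σ = 0 → (0 ≤ s o σ ∨ Real.exp (θ * T) ≤ P.nv o (σ x)) ∧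
        (∀ i, SV S (a o σ i)) ∧ (∀ i, SV S (b o σ i)) ∧
        (∀ i, HBZ P.emb (Real.exp (ε * T)) (c o σ i)) ∧
        (∀ i, HBZ P.emb (Real.exp (ε * T)) (d o σ i)) ∧
        HBZ P.emb (Real.exp (B * T)) (∑ i, c o σ i * a o σ i) ∧
        HBZ P.emb (Real.exp (B * T)) (∑ i, d o σ i * b o σ i) ∧
        ∑ i, d o σ i * b o σ i ≠ 0 ∧
        P.nv o (σ (x - F.coeff (2 * g + 1) *
          ((∑ i, c o σ i * a o σ i) / ∑ i, d o σ i * b o σ i) ^ 2)) ≤ Real.exp (s o σ))) →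
    (Fintype.card (M ≃ₐ[ℚ] M) : ℝ) * Real.log m +
      ∑ o ∈ plc S₀, ∑ σ : M ≃ₐ[ℚ] M, s o σ + δ * T ≤
      1 / 2 * ∑ o ∈ plc S₀, ∑ σ : M ≃ₐ[ℚ] M, Real.log (max 1 (P.nv o (σ x))) →
    T ≤ C

/-- (FINP3) the final theorem for odd degree, as `ST_FING3` -/
def ST_FINP3 : Prop := ∀ (K : Type) [Field K] [NumberField K] (h : K → ℝ), IsHt K h →
  ∀ (S : Finset ℕ) (w : ℕ → AbsoluteValue ℂ ℝ), Ext S w →
  ∀ (Γ : Subgroup Kˣ) (t n d : ℕ) (δ B : ℝ), Γ.FG → 3 ≤ d → 0 < δ →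
    ∃ ε C₁ C₂ : ℝ, 0 < ε ∧ 0 < C₁ ∧ 0 < C₂ ∧ ∀ F : K[X], F.natDegree = d → F.Separable →
      ∀ x y : K, y ^ 2 = F.eval x → ∀ H : ℝ, (∀ i, h (F.coeff i) ≤ H) →
        ∀ z c : K, ((Odd d ∧ x = z ∧ c = F.coeff d) ∨
          ∃ e : K, h e ≤ ε * h x ∧ F.eval e = 0 ∧ z ≠ 0 ∧ x = e + 1 / z ∧
            c = F.derivative.eval e) →
        ∀ (m : ℕ) (s : Option ℕ → (K →+* ℂ) → ℝ), m ≠ 0 → SI S ((m : K) * z) →
          (∀ o ∈ plc S, ∀ τ, -(B * h x) ≤ s o τ ∧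
            NearP2 h Γ t n (ε * h x) (B * h x) (δ * h x) w c z o τ (s o τ)) →
          (Module.finrank ℚ K : ℝ) * Real.log m +
            ∑ o ∈ plc S, ∑ τ : K →+* ℂ, s o τ + δ * h x ≤
            1 / 2 * ∑ o ∈ plc S, ∑ τ : K →+* ℂ, Real.log (max 1 (pv w o (τ z))) →
          h x ≤ C₁ * H + C₂

end Pool.Agent.Helper77.HG3
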