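import Pool.Agent.Helper77.HE.Alge

/-! Even degree, general form: closeness in the mean over all places, denominators, and also over
the field `F` itself instead of `K` (helper77). -/

set_option autoImplicit false

namespace Pool.Agent.Helper77.HE

open Polynomial Pool.Agent.Helper71.JN Pool.Agent.Helper71.HN
open Pool.Agent.Helper70.JN (v_pow_le v_eq_of_lt gskP)

/-- the order `N` and the degree `w` of the approximations -/
theorem choose_wN2 (g : ℕ) (L η M0 : ℝ) (hL : 0 ≤ L) (hM : 0 ≤ M0) (hη : 4 * M0 < η) :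
    ∃ w : ℕ, g + 1 ≤ w ∧ ∃ N : ℕ,
    (N + g : ℝ) * (2 * N + g + 1) * M0 + ((N + g + 1) * (N + g) / 2 : ℝ) * (L - η) +
      (2 * w * N - (w - g) / w * (N * (N - 1) / 2)) * L < 0 := by
  set ζ : ℝ := η - 4 * M0 with hζ
  have hζ0 : 0 < ζ := by linarith
  obtain ⟨w₀, hw₀⟩ := exists_nat_gt (2 * g * L / ζ)
  set w : ℕ := max w₀ (g + 1) with hw
  have hw1 : g + 1 ≤ w := le_max_right _ _
  have hwr : (0 : ℝ) < w := by exact_mod_cast (by omega : 0 < w)
  have hw2 : 2 * g * L / ζ < w := lt_of_lt_of_le hw₀ (by exact_mod_cast le_max_left _ _)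
  have hgL : (g : ℝ) / w * L ≤ ζ / 2 := by
    rw [div_lt_iff₀ hζ0] at hw2
    rw [div_mul_eq_mul_div, div_le_iff₀ hwr]
    linarith
  refine ⟨w, hw1, ?_⟩
  set C : ℝ := (g ^ 2 + 3 * g + 1) * L / 2 + L / 2 + 2 * w * L + (g ^ 2 + 4 * g + 1) * M0 with hC
  have hg0 : (0 : ℝ) ≤ g := Nat.cast_nonneg _
  have hC0 : 0 ≤ C := by positivity
  obtain ⟨N, hN⟩ := exists_nat_gt (4 * C / ζ)
  have hN0 : (0 : ℝ) < N := lt_of_le_of_lt (by positivity) hN
  have hN1 : (1 : ℝ) ≤ N := by
    have : 0 < N := by exact_mod_cast hN0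
    exact_mod_cast this
  rw [div_lt_iff₀ hζ0] at hN
  refine ⟨N, ?_⟩
  have e1 : ((w : ℝ) - g) / w = 1 - g / w := by field_simp
  have hgN : 0 ≤ (g : ℝ) * (N - 1) := mul_nonneg hg0 (by linarith)
  have hggN : 0 ≤ (g : ℝ) * g * (N - 1) := mul_nonneg (mul_nonneg hg0 hg0) (by linarith)
  have h1 : ((N + g + 1) * (N + g) / 2 : ℝ) ≤ N ^ 2 / 2 + (g ^ 2 + 3 * g + 1) / 2 * N := by
    nlinarith
  have h1' : (N ^ 2 / 2 : ℝ) ≤ ((N + g + 1) * (N + g) / 2 : ℝ) := by
    nlinarith
  have h2 := mul_le_mul_of_nonneg_right h1 hL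
  have h2' := mul_le_mul_of_nonneg_right h1' (by linarith : 0 ≤ η)
  have h3 : (g : ℝ) / w * L * (N * (N - 1) / 2) ≤ ζ / 2 * (N ^ 2 / 2) := by
    refine (mul_le_mul_of_nonneg_right hgL ?_).trans (mul_le_mul_of_nonneg_left ?_ (by linarith))
    · have : 0 ≤ (N : ℝ) * (N - 1) := mul_nonneg hN0.le (by linarith)
      linarith
    · nlinarith
  have h5 : (N + g : ℝ) * (2 * N + g + 1) ≤ 2 * N ^ 2 + (g ^ 2 + 4 * g + 1) * N := by
    nlinarith
  have h6 := mul_le_mul_of_nonneg_right h5 hM
  rw [e1]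
  have h4 : (N : ℝ) * (C - N * (ζ / 4)) < 0 := by
    refine mul_neg_of_pos_of_neg hN0 ?_
    linarith
  rw [hC] at h4
  have h7 : η = ζ + 4 * M0 := by rw [hζ]; ring
  have h8 : (N ^ 2 / 2 : ℝ) * η = N ^ 2 / 2 * ζ + 2 * N ^ 2 * M0 := by rw [h7]; ring
  nlinarith

section
variable {F Ω : Type} [Field F] [Field Ω] [Algebra F Ω] {I : Type} [Fintype I] {r : ℕ}

/-- the Subspace theorem over the field `K` -/
def GSKP (D : SSF F Ω I r) (K : IntermediateField F Ω) : Prop := ∀ (κ : Type) [Fintype κ]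
  (e : κ → Ω) (f g : I → κ → Ω) (ρ : I → κ → ℕ), (∀ k, e k ∈ D.O) → LinearIndependent K e →
  (∀ i k, g i k ∈ K ∧ g i k ≠ 0) →
  (∀ i k, f i k - g i k * e k ∈ Submodule.span K (e '' {l | ρ i l < ρ i k})) →
  1 ≤ ∏ i, ∏ k, D.nu i (f i k) / D.nu i (g i k)

theorem gskK (D : SSF F Ω I r) : GSKP D D.K := fun _ _ e f g ρ h1 h2 h3 h4 =>
  gskP D e f g ρ h1 h2 h3 h4

/-- triangular families -/
theorem tri_span {κ : Type} (e f : κ → Ω) (g : κ → F) (ρ : κ → ℕ) (hg : ∀ k, g k ≠ 0)
    (hf : ∀ k, f k - algebraMap F Ω (g k) * e k ∈ Submodule.span F (e '' {l | ρ l < ρ k})) :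
    Submodule.span F (Set.range f) = Submodule.span F (Set.range e) := by
  apply le_antisymm
  · refine Submodule.span_le.2 ?_
    rintro _ ⟨k, rfl⟩
    have h1 : f k = (f k - algebraMap F Ω (g k) * e k) + g k • e k := by
      rw [Algebra.smul_def]
      ring
    rw [h1]
    exact add_mem (Submodule.span_mono (Set.image_subset_range _ _) (hf k))
      (Submodule.smul_mem _ _ (Submodule.subset_span ⟨k, rfl⟩))
  · have key : ∀ n : ℕ, ∀ k, ρ k < n → e k ∈ Submodule.span F (Set.range f) := by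
      intro n
      induction n with
      | zero => intro k hk; omega
      | succ n ih =>
        intro k hk
        have h1 : Submodule.span F (e '' {l | ρ l < ρ k}) ≤ Submodule.span F (Set.range f) := by
          refine Submodule.span_le.2 ?_
          rintro _ ⟨l, hl, rfl⟩
          exact ih l (lt_of_lt_of_le hl (Nat.lt_succ_iff.1 hk))
        have h2 : e k = (g k)⁻¹ • (f k - (f k - algebraMap F Ω (g k) * e k)) := by
          rw [sub_sub_cancel, ← Algebra.smul_def, smul_smul, inv_mul_cancel₀ (hg k), one_smul]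
        rw [h2]
        exact Submodule.smul_mem _ _ (sub_mem (Submodule.subset_span ⟨k, rfl⟩) (h1 (hf k)))
    refine Submodule.span_le.2 ?_
    rintro _ ⟨k, rfl⟩
    exact key _ k (Nat.lt_succ_self _)

theorem gskF (D : SSF F Ω I r) : GSKP D ⊥ := by
  intro κ _ e f g ρ h1 h2 h3 h4
  classical
  have hc : ∀ z : Ω, z ∈ (⊥ : IntermediateField F Ω) → ∃ a : F, algebraMap F Ω a = z := fun z hz =>
    IntermediateField.mem_bot.1 hz
  choose a ha using fun i k => hc _ (h3 i k).1
  have ha0 : ∀ i k, a i k ≠ 0 := by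
    intro i k h0
    apply (h3 i k).2
    rw [← ha i k, h0, map_zero]
  have hsp : ∀ s : Set Ω, ∀ z, z ∈ Submodule.span (⊥ : IntermediateField F Ω) s →
      z ∈ Submodule.span F s := by
    intro s z hz
    induction hz using Submodule.span_induction with
    | mem x hx => exact Submodule.subset_span hx
    | zero => exact zero_mem _
    | add x y _ _ hx hy => exact add_mem hx hy
    | smul b x _ hx =>
      obtain ⟨b', hb'⟩ := hc _ b.2
      have h5 : b • x = b' • x := by
        rw [Algebra.smul_def, Algebra.smul_def, hb']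
        rfl
      rw [h5]
      exact Submodule.smul_mem _ _ hx
  have hli : LinearIndependent F e := LinearIndependent.restrict_scalars (R := F)
    (K := (⊥ : IntermediateField F Ω)) (by
      intro x y hxy
      have : algebraMap F (⊥ : IntermediateField F Ω) x = algebraMap F _ y := by
        rw [Algebra.algebraMap_eq_smul_one, Algebra.algebraMap_eq_smul_one]
        exact hxy
      exact (algebraMap F (⊥ : IntermediateField F Ω)).injective this) h2
  have h5 := Pool.Agent.Helper70.JN.ss' D e f h1 hli (fun i => tri_span e (f i) (a i) (ρ i)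
    (ha0 i) (fun k => hsp _ _ (by rw [ha i k]; exact h4 i k)))
  refine h5.trans_eq (Finset.prod_congr rfl fun i _ => Finset.prod_congr rfl fun k _ => ?_)
  rw [← ha i k, D.F1 i _ (ha0 i k), div_one]

end

section
variable {F Ω : Type} [Field F] [Field Ω] [CharZero Ω] [Algebra F Ω] {I : Type} [Fintype I]
  {r : ℕ}

/-- **(ALGM)** the general form: `x` is algebraic over `K` (`K = D.K` or `K = F`) -/
theorem algM (D : SSF F Ω I r) (K : IntermediateField F Ω) (hG : GSKP D K) (g : ℕ) (f : F[X])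
    (m x y : Ω) (R : I → Ω) (c : I → ℝ) (hfm : f.Monic) (hfd : f.natDegree = 2 * g + 2)
    (hfs : f.Separable) (hm0 : m ≠ 0) (hmO : m ∈ D.O) (hxO : m * x ∈ D.O)
    (hyO : m ^ (g + 1) * y ∈ D.O) (hcu : y ^ 2 = aeval x f) (hR : ∀ i, R i ∈ K)
    (hc : ∀ i, D.nu i (x - R i) ≤ Real.exp (c i))
    (hs : 4 * ∑ i, Real.log (D.nu i m) + ∑ i, c i < ∑ i, Real.log (max (D.nu i x) 1)) :
    IsIntegral K x := by
  classical
  by_contra hx
  -- the sizes
  set lam : I → ℝ := fun i => Real.log (max (D.nu i x) 1) with hlam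
  have hmax : ∀ i, (1 : ℝ) ≤ max (D.nu i x) 1 := fun i => le_max_right _ _
  have hlam0 : ∀ i, 0 ≤ lam i := fun i => Real.log_nonneg (hmax i)
  have hexp : ∀ i, Real.exp (lam i) = max (D.nu i x) 1 := fun i =>
    Real.exp_log (lt_of_lt_of_le one_pos (hmax i))
  have hxl : ∀ i, D.nu i x ≤ Real.exp (lam i) := fun i => by
    rw [hexp]
    exact le_max_left _ _
  have hxe : ∀ i, 0 < lam i → D.nu i x = Real.exp (lam i) := by
    intro i hi
    have h1 := Real.one_lt_exp_iff.2 hi
    rw [hexp] at h1 ⊢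
    rcases lt_max_iff.1 h1 with h2 | h2
    · rw [max_eq_left h2.le]
    · exact absurd h2 (lt_irrefl _)
  have hmp : ∀ i, 0 < D.nu i m := fun i => (D.nu i).pos hm0
  set μ : I → ℝ := fun i => Real.log (D.nu i m) with hμ
  have hμe : ∀ i, D.nu i m = Real.exp (μ i) := fun i => (Real.exp_log (hmp i)).symm
  have hM0 : 0 ≤ ∑ i, μ i := by
    have h1 := Pool.Agent.Helper70.JN.one_le_prod D hmO hm0
    have h2 : ∏ i, D.nu i m = Real.exp (∑ i, μ i) := by
      rw [Real.exp_sum]
      exact Finset.prod_congr rfl fun i _ => hμe i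
    rw [h2] at h1
    exact Real.one_le_exp_iff.1 h1
  set L : ℝ := ∑ i, lam i with hL
  have hL0 : 0 ≤ L := Finset.sum_nonneg fun i _ => hlam0 i
  obtain ⟨w, hw, N, hN⟩ := choose_wN2 g L (L - ∑ i, c i) (∑ i, μ i) hL0 hM0 (by linarith)
  -- the forms
  have hform := fun i (j : Fin N) => locE (D.nu i) (ul_nu D i) (D.F1 i) g w f (lam i) x y hw hfm hfd
    hcu (hlam0 i) (hxl i) (hxe i) (j : ℕ)
  choose P Q hP hQ hQc hPQ using hform
  set M : ℕ := N + g + 1 with hM
  set A : ℕ := N + g with hA
  have hmA : m ^ A ≠ 0 := pow_ne_zero _ hm0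
  have hind0 := eE_indep K f g hfd hfs x y hcu hx M N
  set E : Fin M ⊕ Fin N → Ω := fun k => m ^ A * eE x y M N k with hE
  have hind : LinearIndependent K E := by
    have h1 := hind0.map' (LinearMap.mulLeft K (m ^ A)) (by
      rw [LinearMap.ker_eq_bot]
      exact fun a b hab => mul_left_cancel₀ hmA hab)
    exact h1
  set ff : I → Fin M ⊕ Fin N → Ω := fun i => Sum.elim
    (fun n => m ^ A * (x - R i) ^ (n : ℕ))
    (fun j => m ^ A * (aeval x (P i j) + aeval x (Q i j) * y)) with hff
  set gg : I → Fin M ⊕ Fin N → Ω := fun i => Sum.elim (fun _ => 1)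
    (fun j => algebraMap F Ω ((Q i j).coeff j)) with hgg
  set ρ : I → Fin M ⊕ Fin N → ℕ := fun _ => Sum.elim (fun m => 2 * (m : ℕ))
    (fun j => 2 * ((j : ℕ) + (g + 1)) + 1) with hρ
  have hX : ∀ (i : I) (k : Fin M ⊕ Fin N) (n : ℕ), n < M → 2 * n < ρ i k →
      x ^ n ∈ (Submodule.span K (E '' {l | ρ i l < ρ i k})).comap (LinearMap.mulLeft K (m ^ A)) := by
    intro i k n hn h
    exact Submodule.subset_span ⟨Sum.inl ⟨n, hn⟩, h, rfl⟩
  have hY : ∀ (i : I) (k : Fin M ⊕ Fin N) (n : ℕ), n < N → 2 * (n + (g + 1)) + 1 < ρ i k →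
      x ^ n * y ∈ (Submodule.span K (E '' {l | ρ i l < ρ i k})).comap
        (LinearMap.mulLeft K (m ^ A)) := by
    intro i k n hn h
    exact Submodule.subset_span ⟨Sum.inr ⟨n, hn⟩, h, rfl⟩
  have hEO : ∀ k, E k ∈ D.O := by
    rintro (n | j)
    · show m ^ A * x ^ (n : ℕ) ∈ D.O
      have e1 : m ^ A * x ^ (n : ℕ) = m ^ (A - n) * (m * x) ^ (n : ℕ) := by
        rw [mul_pow, ← mul_assoc, ← pow_add, Nat.sub_add_cancel]
        have := n.2
        omega
      rw [e1]
      exact D.O.mul_mem (pow_mem hmO _) (pow_mem hxO _)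
    · show m ^ A * (x ^ (j : ℕ) * y) ∈ D.O
      have e1 : m ^ A * (x ^ (j : ℕ) * y) =
          m ^ (A - (j + (g + 1))) * ((m * x) ^ (j : ℕ) * (m ^ (g + 1) * y)) := by
        have e2 : m ^ A = m ^ (A - (j + (g + 1))) * (m ^ (j : ℕ) * m ^ (g + 1)) := by
          rw [← pow_add, ← pow_add]
          congr 1
          have := j.2
          omega
        rw [e2, mul_pow]
        ring
      rw [e1]
      exact D.O.mul_mem (pow_mem hmO _) (D.O.mul_mem (pow_mem hxO _) hyO)
  have key := hG _ E ff gg ρ hEO hind (by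
      rintro i (n | j)
      · exact ⟨K.one_mem, one_ne_zero⟩
      · refine ⟨K.algebraMap_mem _, ?_⟩
        show algebraMap F Ω ((Q i j).coeff j) ≠ 0
        rw [Ne, map_eq_zero]
        exact hQc i j) (by
      rintro i (n | j)
      · show m ^ A * (x - R i) ^ (n : ℕ) - 1 * (m ^ A * x ^ (n : ℕ)) ∈ _
        set R' : K := ⟨R i, hR i⟩ with hR'
        have h1 : m ^ A * (x - R i) ^ (n : ℕ) - 1 * (m ^ A * x ^ (n : ℕ)) =
            m ^ A * aeval x ((X - C R') ^ (n : ℕ) - X ^ (n : ℕ)) := by
          rw [map_sub, map_pow, map_pow, map_sub, aeval_X, aeval_C, one_mul, mul_sub]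
          rfl
        rw [h1]
        refine aeval_span K x ((Submodule.span K (E '' {l | ρ i l < ρ i (Sum.inl n)})).comap
          (LinearMap.mulLeft K (m ^ A))) (n : ℕ) _ ?_ (fun n' hn' => hX i _ n' (hn'.trans n.2) ?_)
        · have h2 : ((X - C R') ^ (n : ℕ)).Monic := (monic_X_sub_C _).pow _
          have h3 : ((X - C R') ^ (n : ℕ)).degree = ((n : ℕ) : WithBot ℕ) := by
            rw [degree_pow, degree_X_sub_C, nsmul_one]
          by_cases h0 : (n : ℕ) = 0
          · rw [h0, pow_zero, pow_zero, sub_self, degree_zero]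
            exact WithBot.bot_lt_coe _
          have h4 := degree_sub_lt_left (p := (X - C R') ^ (n : ℕ)) (q := X ^ (n : ℕ))
            (by rw [h3, degree_X_pow]) h2.ne_zero
            (by rw [h2.leadingCoeff, (monic_X_pow _).leadingCoeff])
          rwa [h3] at h4
        · show 2 * n' < 2 * (n : ℕ)
          omega
      · show m ^ A * (aeval x (P i j) + aeval x (Q i j) * y) -
          algebraMap F Ω ((Q i j).coeff j) * (m ^ A * (x ^ (j : ℕ) * y)) ∈ _
        have h1 : m ^ A * (aeval x (P i j) + aeval x (Q i j) * y) -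
            algebraMap F Ω ((Q i j).coeff j) * (m ^ A * (x ^ (j : ℕ) * y)) =
            m ^ A * (aeval x ((P i j).map (algebraMap F K)) +
            aeval x ((Q i j - C ((Q i j).coeff j) * X ^ (j : ℕ)).map (algebraMap F K)) * y) := by
          rw [aeval_map_algebraMap, aeval_map_algebraMap, map_sub, map_mul, aeval_C, map_pow,
            aeval_X]
          ring
        rw [h1]
        refine Submodule.add_mem ((Submodule.span K (E '' {l | ρ i l < ρ i (Sum.inr j)})).comap
          (LinearMap.mulLeft K (m ^ A))) (aeval_span K x _ ((j : ℕ) + (g + 1) + 1) _ ?_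
          (fun m' hm' => hX i _ m' (by omega) ?_))
          (aeval_span_mul K x y _ (j : ℕ) _ ?_
          (fun m' hm' => hY i _ m' (hm'.trans j.2) ?_))
        · refine lt_of_le_of_lt (degree_map_le.trans (degree_le_of_natDegree_le (hP i j))) ?_
          exact_mod_cast Nat.lt_succ_self _
        · show 2 * m' < 2 * ((j : ℕ) + (g + 1)) + 1
          omega
        · refine lt_of_le_of_lt degree_map_le ?_
          rw [degree_lt_iff_coeff_zero]
          intro n hn
          rw [coeff_sub, coeff_C_mul, coeff_X_pow]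
          rcases Nat.eq_or_lt_of_le hn with h | h
          · rw [if_pos h.symm, h, mul_one, sub_self]
          · rw [if_neg h.ne', mul_zero, sub_zero]
            exact coeff_eq_zero_of_natDegree_lt (lt_of_le_of_lt (hQ i j) h)
        · show 2 * (m' + (g + 1)) + 1 < 2 * ((j : ℕ) + (g + 1)) + 1
          omega)
  -- the sizes
  have hprod : ∏ i, ∏ k, D.nu i (ff i k) / D.nu i (gg i k) < 1 := by
    have h1 : ∀ i, ∏ k, D.nu i (ff i k) / D.nu i (gg i k) ≤
        Real.exp ((N + g : ℝ) * (2 * N + g + 1) * μ i +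
          ((N + g + 1) * (N + g) / 2 : ℝ) * c i +
          (2 * w * N - (w - g) / w * (N * (N - 1) / 2)) * lam i) := by
      intro i
      rw [Fintype.prod_sum_type]
      have hX2 : ∏ n : Fin M, D.nu i (ff i (Sum.inl n)) / D.nu i (gg i (Sum.inl n)) ≤
          Real.exp ((N + g + 1 : ℝ) * (N + g) * μ i + ((N + g + 1) * (N + g) / 2 : ℝ) * c i) := by
        have h2 : ∀ n : Fin M, D.nu i (ff i (Sum.inl n)) / D.nu i (gg i (Sum.inl n)) ≤
            Real.exp ((N + g) * μ i + ((n : ℕ) : ℝ) * c i) := by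
          intro n
          show D.nu i (m ^ A * (x - R i) ^ (n : ℕ)) / D.nu i 1 ≤ _
          rw [(D.nu i).map_one, div_one, Real.exp_add, map_mul, map_pow (D.nu i) m, hμe i,
            ← Real.exp_nat_mul, Real.exp_nat_mul (c i), hA]
          push_cast
          exact mul_le_mul_of_nonneg_left (v_pow_le (hc i) _) (Real.exp_pos _).le
        refine (Finset.prod_le_prod (fun _ _ => div_nonneg ((D.nu i).nonneg _)
          ((D.nu i).nonneg _)) fun m _ => h2 m).trans (le_of_eq ?_)
        rw [← Real.exp_sum, Finset.sum_add_distrib, Finset.sum_const, ← Finset.sum_mul, sum_fin_id,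
          Finset.card_univ, Fintype.card_fin, nsmul_eq_mul]
        congr 1
        rw [hM, hA]
        push_cast
        ring
      have hY2 : ∏ j : Fin N, D.nu i (ff i (Sum.inr j)) / D.nu i (gg i (Sum.inr j)) ≤
          Real.exp (N * (N + g) * μ i +
            (2 * w * N - (w - g) / w * (N * (N - 1) / 2)) * lam i) := by
        have h2 : ∀ j : Fin N, D.nu i (ff i (Sum.inr j)) / D.nu i (gg i (Sum.inr j)) ≤
            Real.exp ((N + g) * μ i + (2 * w - (w - g) / w * ((j : ℕ) : ℝ)) * lam i) := by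
          intro j
          show D.nu i (m ^ A * (aeval x (P i j) + aeval x (Q i j) * y)) /
            D.nu i (algebraMap F Ω ((Q i j).coeff j)) ≤ _
          rw [D.F1 i _ (hQc i j), div_one, Real.exp_add, map_mul, map_pow (D.nu i) m, hμe i,
            ← Real.exp_nat_mul, hA]
          push_cast
          exact mul_le_mul_of_nonneg_left (hPQ i j) (Real.exp_pos _).le
        refine (Finset.prod_le_prod (fun _ _ => div_nonneg ((D.nu i).nonneg _)
          ((D.nu i).nonneg _)) fun m _ => h2 m).trans (le_of_eq ?_)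
        rw [← Real.exp_sum, Finset.sum_add_distrib, Finset.sum_const, ← Finset.sum_mul,
          Finset.sum_sub_distrib, Finset.sum_const,
          ← Finset.mul_sum, sum_fin_id, Finset.card_univ, Fintype.card_fin, nsmul_eq_mul,
          nsmul_eq_mul]
        congr 1
        ring
      refine (mul_le_mul hX2 hY2 (Finset.prod_nonneg fun _ _ => div_nonneg ((D.nu i).nonneg _)
        ((D.nu i).nonneg _)) (Real.exp_pos _).le).trans (le_of_eq ?_)
      rw [← Real.exp_add]
      congr 1
      ring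
    refine lt_of_le_of_lt (Finset.prod_le_prod (fun i _ => Finset.prod_nonneg fun k _ =>
      div_nonneg ((D.nu i).nonneg _) ((D.nu i).nonneg _)) (fun i _ => h1 i)) ?_
    rw [← Real.exp_sum, Real.exp_lt_one_iff, Finset.sum_add_distrib, Finset.sum_add_distrib,
      ← Finset.mul_sum, ← Finset.mul_sum, ← Finset.mul_sum]
    have h9 : L - (L - ∑ i, c i) = ∑ i, c i := by ring
    rw [h9] at hN
    exact hN
  exact absurd key (not_le.2 hprod)

omit [CharZero Ω] in
theorem le_exp_cut {v : AbsoluteValue Ω ℝ} {z : Ω} {a b : ℝ} (hb : 0 < b) (h : v z < a)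
    (hba : b < a) : v z ≤ Real.exp (Real.log (max (v z) b)) ∧
      Real.log (max (v z) b) < Real.log a := by
  have h1 : 0 < max (v z) b := lt_of_lt_of_le hb (le_max_right _ _)
  refine ⟨?_, Real.log_lt_log h1 (max_lt h hba)⟩
  rw [Real.exp_log h1]
  exact le_max_left _ _

/-- **(ALGE0)** closeness to a slow element at one place where `x` is not large: `x` is algebraic
over `F` (any `g`) -/
theorem ALGE0 (D : SSF F Ω I r) (g : ℕ) (f : F[X]) (x y : Ω) (c : F) (i₀ : I) (hfm : f.Monic)
    (hfd : f.natDegree = 2 * g + 2) (hfs : f.Separable) (hxO : x ∈ D.O) (hyO : y ∈ D.O)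
    (hcu : y ^ 2 = aeval x f) (hc : D.nu i₀ (x - algebraMap F Ω c) < 1) : IsIntegral F x := by
  classical
  have hv := ul_nu D i₀
  have hcle : D.nu i₀ (algebraMap F Ω c) ≤ 1 := by
    by_cases h0 : c = 0
    · rw [h0, map_zero, map_zero]
      exact zero_le_one
    · exact (D.F1 i₀ c h0).le
  have hx1 : D.nu i₀ x ≤ 1 := by
    have h1 : x = (x - algebraMap F Ω c) + algebraMap F Ω c := by ring
    rw [h1]
    exact (hv.1 _ _).trans (max_le hc.le hcle)
  obtain ⟨h1, h2⟩ := le_exp_cut (v := D.nu i₀) (z := x - algebraMap F Ω c) (a := 1) (b := 1 / 2)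
    (by norm_num) hc (by norm_num)
  rw [Real.log_one] at h2
  set e : ℝ := Real.log (max (D.nu i₀ (x - algebraMap F Ω c)) (1 / 2)) with he
  have h3 : IsIntegral (⊥ : IntermediateField F Ω) x := by
    refine algM D ⊥ (gskF D) g f 1 x y (fun i => if i = i₀ then algebraMap F Ω c else 0)
      (fun i => if i = i₀ then e else Real.log (max (D.nu i x) 1)) hfm hfd hfs one_ne_zero
      D.O.one_mem (by rwa [one_mul]) (by rwa [one_pow, one_mul]) hcu ?_ ?_ ?_
    · intro i
      show (if i = i₀ then algebraMap F Ω c else 0) ∈ _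
      split_ifs
      · exact (⊥ : IntermediateField F Ω).algebraMap_mem c
      · exact zero_mem _
    · intro i
      show D.nu i (x - if i = i₀ then algebraMap F Ω c else 0) ≤
        Real.exp (if i = i₀ then e else Real.log (max (D.nu i x) 1))
      split_ifs with hi
      · rw [hi]
        exact h1
      · rw [sub_zero, Real.exp_log (lt_of_lt_of_le one_pos (le_max_right _ _))]
        exact le_max_left _ _
    · have h4 : ∀ i : I, Real.log (D.nu i (1 : Ω)) = 0 := fun i => by
        rw [(D.nu i).map_one, Real.log_one]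
      rw [Finset.sum_congr rfl fun i _ => h4 i, Finset.sum_const_zero, mul_zero, zero_add]
      refine Finset.sum_lt_sum (fun i _ => ?_) ⟨i₀, Finset.mem_univ _, ?_⟩
      · show (if i = i₀ then e else Real.log (max (D.nu i x) 1)) ≤ Real.log (max (D.nu i x) 1)
        split_ifs with hi
        · exact h2.le.trans (Real.log_nonneg (le_max_right _ _))
        · exact le_rfl
      · show (if i₀ = i₀ then e else Real.log (max (D.nu i₀ x) 1)) < Real.log (max (D.nu i₀ x) 1)
        rw [if_pos rfl]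
        exact lt_of_lt_of_le h2 (Real.log_nonneg (le_max_right _ _))
  have h5 : Algebra.IsIntegral F (⊥ : IntermediateField F Ω) := by
    refine ⟨fun z => ?_⟩
    obtain ⟨a, ha⟩ := IntermediateField.mem_bot.1 z.2
    have h6 : z = algebraMap F (⊥ : IntermediateField F Ω) a := Subtype.ext ha.symm
    rw [h6]
    exact isIntegral_algebraMap
  exact isIntegral_trans x h3

end

end Pool.Agent.Helper77.HE
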