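import Pool.Agent.Helper77.HE.Pade
import Pool.Agent.Helper70.JN.GSK

/-! Even degree: `x` is algebraic over `K` (helper77). -/

set_option autoImplicit false

namespace Pool.Agent.Helper77.HE

open Polynomial Pool.Agent.Helper71.JN Pool.Agent.Helper71.HN
open Pool.Agent.Helper70.JN (v_pow_le v_eq_of_lt gskP)

/-- (ALGE) `y ^ 2 = f x`, `f` monic and separable of even degree `2 g + 2`, `x`, `y` integral, `x`
close to an element of `K` at one place where it is large: `x` is algebraic over `K` -/
def ST_ALGE : Prop := ∀ (F Ω : Type) [Field F] [Field Ω] [CharZero Ω] [Algebra F Ω] (I : Type)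
  [Fintype I] (r : ℕ) (D : SSF F Ω I r) (g : ℕ) (f : F[X]) (x y R : Ω) (i₀ : I),
  f.Monic → f.natDegree = 2 * g + 2 → f.Separable → x ∈ D.O → y ∈ D.O → y ^ 2 = aeval x f →
  R ∈ D.K → 1 < D.nu i₀ x → D.nu i₀ (x - R) < D.nu i₀ x → IsIntegral D.K x

section powers
variable {F : Type} [Field F]

/-- powers of the Pade form -/
theorem powers (g : ℕ) (f A B : F[X]) (hf : f.Monic) (hfd : f.natDegree = 2 * g + 2) (hB : B ≠ 0)
    (hA : (A + X ^ (g + 1) * B).degree < ((B.natDegree + (g + 1) : ℕ) : WithBot ℕ))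
    (h2 : (2 : F) ≠ 0) (l : ℕ) : ∃ (U V : F[X]) (c : F), c ≠ 0 ∧
      U.natDegree ≤ (l + 1) * (B.natDegree + (g + 1)) ∧
      U.coeff ((l + 1) * (B.natDegree + (g + 1))) = -c ∧
      V.natDegree ≤ l * (B.natDegree + (g + 1)) + B.natDegree ∧
      V.coeff (l * (B.natDegree + (g + 1)) + B.natDegree) = c ∧
      ∀ (Ω : Type) [Field Ω] [Algebra F Ω] (x y : Ω), y ^ 2 = aeval x f →
        aeval x U + aeval x V * y = (aeval x A + aeval x B * y) ^ (l + 1) := by
  set b : ℕ := B.natDegree with hb
  set w : ℕ := b + (g + 1) with hw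
  have hBc : B.coeff b = B.leadingCoeff := rfl
  have hBl : B.leadingCoeff ≠ 0 := leadingCoeff_ne_zero.2 hB
  have hAd : A.natDegree ≤ w := by
    have h1 : A = (A + X ^ (g + 1) * B) - X ^ (g + 1) * B := by ring
    rw [h1]
    refine (natDegree_sub_le _ _).trans (max_le ?_ ?_)
    · exact natDegree_le_of_degree_le hA.le
    · refine (natDegree_mul_le).trans ?_
      rw [natDegree_X_pow]
      omega
  have hAc : A.coeff w = -B.leadingCoeff := by
    have h1 : A = (A + X ^ (g + 1) * B) - X ^ (g + 1) * B := by ring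
    rw [h1, coeff_sub, coeff_eq_zero_of_degree_lt hA, hw, coeff_X_pow_mul, hBc, zero_sub]
  induction l with
  | zero =>
    refine ⟨A, B, B.leadingCoeff, hBl, ?_, ?_, ?_, ?_, ?_⟩
    · simpa using hAd
    · simpa using hAc
    · simp [hb]
    · simpa using hBc
    · intro Ω _ _ x y _
      simp
  | succ l ih =>
    obtain ⟨U, V, c, hc, hUd, hUc, hVd, hVc, hUV⟩ := ih
    have hfc : f.coeff (2 * g + 2) = 1 := by
      rw [← hfd]
      exact hf.coeff_natDegree
    have hVB : (V * B).natDegree ≤ (l * w + b) + b :=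
      natDegree_mul_le.trans (add_le_add hVd hb.ge)
    have hVBc : (V * B).coeff ((l * w + b) + b) = c * B.leadingCoeff := by
      rw [coeff_mul_add_eq_of_natDegree_le hVd hb.ge, hVc, hBc]
    refine ⟨U * A + V * B * f, U * B + V * A, -(2 * c * B.leadingCoeff), ?_, ?_, ?_, ?_, ?_, ?_⟩
    · exact neg_ne_zero.2 (mul_ne_zero (mul_ne_zero h2 hc) hBl)
    · refine (natDegree_add_le _ _).trans (max_le ?_ ?_)
      · refine natDegree_mul_le.trans ((add_le_add hUd hAd).trans (le_of_eq ?_))
        ring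
      · refine natDegree_mul_le.trans ((add_le_add hVB hfd.le).trans (le_of_eq ?_))
        rw [hw]
        ring
    · have e1 : (l + 1 + 1) * w = (l + 1) * w + w := by ring
      have e2 : (l + 1 + 1) * w = ((l * w + b) + b) + (2 * g + 2) := by
        rw [hw]
        ring
      rw [coeff_add]
      have h3 : (U * A).coeff ((l + 1 + 1) * w) = c * B.leadingCoeff := by
        rw [e1, coeff_mul_add_eq_of_natDegree_le hUd hAd, hUc, hAc]
        ring
      have h4 : (V * B * f).coeff ((l + 1 + 1) * w) = c * B.leadingCoeff := by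
        rw [e2, coeff_mul_add_eq_of_natDegree_le hVB hfd.le, hVBc, hfc, mul_one]
      rw [h3, h4]
      ring
    · refine (natDegree_add_le _ _).trans (max_le ?_ ?_)
      · exact natDegree_mul_le.trans (add_le_add hUd hb.ge)
      · refine natDegree_mul_le.trans ((add_le_add hVd hAd).trans (le_of_eq ?_))
        rw [hw]
        ring
    · have e2 : (l + 1) * w + b = (l * w + b) + w := by ring
      rw [coeff_add]
      have h3 : (U * B).coeff ((l + 1) * w + b) = -c * B.leadingCoeff := by
        rw [coeff_mul_add_eq_of_natDegree_le hUd hb.ge, hUc, hBc]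
      have h4 : (V * A).coeff ((l + 1) * w + b) = -(c * B.leadingCoeff) := by
        rw [e2, coeff_mul_add_eq_of_natDegree_le hVd hAd, hVc, hAc]
        ring
      rw [h3, h4]
      ring
    · intro Ω _ _ x y hxy
      rw [pow_succ, ← hUV Ω x y hxy, map_add, map_add, map_mul, map_mul, map_mul, map_mul, map_mul,
        ← hxy]
      ring

end powers

section
variable {F Ω : Type} [Field F] [Field Ω] [CharZero Ω] [Algebra F Ω]

theorem charZeroF (F Ω : Type) [Field F] [Field Ω] [CharZero Ω] [Algebra F Ω] :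
    CharZero F := by
  have : Function.Injective (Nat.cast : ℕ → F) := by
    intro a b h
    have := congrArg (algebraMap F Ω) h
    rw [map_natCast, map_natCast] at this
    exact_mod_cast this
  exact ⟨this⟩

/-- the form of order `j` at one place, positive sign -/
theorem locE1 (v : AbsoluteValue Ω ℝ) (hv : Ul v)
    (hF : ∀ c : F, c ≠ 0 → v (algebraMap F Ω c) = 1) (g w : ℕ) (f : F[X]) (lam : ℝ) (x y : Ω)
    (hw : g + 1 ≤ w) (hfm : f.Monic) (hfd : f.natDegree = 2 * g + 2) (hcu : y ^ 2 = aeval x f)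
    (hl : 0 < lam) (hx : v x = Real.exp lam)
    (hy : v (y - x ^ (g + 1)) < Real.exp ((g + 1) * lam)) (j : ℕ) :
    ∃ P Q : F[X], P.natDegree ≤ j + (g + 1) ∧ Q.natDegree ≤ j ∧ Q.coeff j ≠ 0 ∧
      v (aeval x P + aeval x Q * y) ≤ Real.exp ((2 * w - (w - g) / w * j) * lam) := by
  obtain ⟨A, B, hB0, hBw, hA, hAB⟩ := PADE F Ω v g w f lam x y hv hF hw hfm hfd hcu hl hx hy
  have := charZeroF F Ω
  set b : ℕ := B.natDegree with hb
  set w' : ℕ := b + (g + 1) with hw'
  have hw0 : 0 < w' := by omega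
  have hwr : (0 : ℝ) < w := by exact_mod_cast (by omega : 0 < w)
  have hgw : (g : ℝ) + 1 ≤ w := by exact_mod_cast hw
  have hq0 : 0 ≤ ((w : ℝ) - g) / w := div_nonneg (by linarith) hwr.le
  have hq1 : ((w : ℝ) - g) / w ≤ 1 := by
    rw [div_le_one hwr]
    have : (0 : ℝ) ≤ g := Nat.cast_nonneg _
    linarith
  rcases Nat.eq_zero_or_pos ((j + (g + 1)) / w') with h0 | h0
  · -- small `j`
    have hj : j + (g + 1) < w' := by
      rcases (Nat.div_eq_zero_iff).1 h0 with h | h
      · omega
      · exact h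
    refine ⟨0, X ^ j, by rw [natDegree_zero]; exact Nat.zero_le _, (natDegree_X_pow_le _), ?_, ?_⟩
    · rw [coeff_X_pow, if_pos rfl]
      exact one_ne_zero
    · rw [map_zero, zero_add, map_pow, aeval_X, map_mul, map_pow, hx, ← Real.exp_nat_mul]
      have h1 : v y ≤ Real.exp ((g + 1) * lam) := by
        have h2 : y = (y - x ^ (g + 1)) + x ^ (g + 1) := by ring
        rw [h2]
        refine (hv.1 _ _).trans (max_le hy.le ?_)
        rw [map_pow, hx, ← Real.exp_nat_mul]
        push_cast
        exact le_rfl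
      calc Real.exp (j * lam) * v y ≤ Real.exp (j * lam) * Real.exp ((g + 1) * lam) :=
            mul_le_mul_of_nonneg_left h1 (Real.exp_pos _).le
        _ = Real.exp ((j + (g + 1)) * lam) := by
            rw [← Real.exp_add]
            congr 1
            ring
        _ ≤ _ := by
            rw [Real.exp_le_exp]
            refine mul_le_mul_of_nonneg_right ?_ hl.le
            have h2 : (j : ℝ) + (g + 1) ≤ w := by exact_mod_cast (by omega : j + (g + 1) ≤ w)
            have h3 : ((w : ℝ) - g) / w * j ≤ 1 * j :=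
              mul_le_mul_of_nonneg_right hq1 (Nat.cast_nonneg _)
            have h4 : (0 : ℝ) ≤ g := Nat.cast_nonneg _
            linarith
  · obtain ⟨l, hl1⟩ : ∃ l, (j + (g + 1)) / w' = l + 1 := ⟨_, (Nat.succ_pred_eq_of_pos h0).symm⟩
    set s : ℕ := (j + (g + 1)) % w' with hs
    have hsw : s < w' := Nat.mod_lt _ hw0
    have hdm : (l + 1) * w' + s = j + (g + 1) := by
      have := Nat.div_add_mod (j + (g + 1)) w'
      rw [hl1, mul_comm] at this
      exact this
    have hdm2 : l * w' + b + s = j := by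
      have : (l + 1) * w' = l * w' + b + (g + 1) := by
        rw [hw']
        ring
      omega
    obtain ⟨U, V, c, hc, hUd, -, hVd, hVc, hUV⟩ := powers g f A B hfm hfd hB0 hA two_ne_zero l
    refine ⟨U * X ^ s, V * X ^ s, ?_, ?_, ?_, ?_⟩
    · refine natDegree_mul_le.trans ((add_le_add hUd (natDegree_X_pow_le s)).trans hdm.le)
    · refine natDegree_mul_le.trans ((add_le_add hVd (natDegree_X_pow_le s)).trans hdm2.le)
    · rw [← hdm2, coeff_mul_X_pow, hVc]
      exact hc
    · have h1 : aeval x (U * X ^ s) + aeval x (V * X ^ s) * y =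
          (aeval x A + aeval x B * y) ^ (l + 1) * x ^ s := by
        rw [← hUV Ω x y hcu, map_mul, map_mul, map_pow, aeval_X]
        ring
      rw [h1, map_mul, map_pow v x s, hx]
      calc v ((aeval x A + aeval x B * y) ^ (l + 1)) * Real.exp lam ^ s
          ≤ Real.exp ((g - w) * lam) ^ (l + 1) * Real.exp lam ^ s :=
            mul_le_mul_of_nonneg_right (v_pow_le hAB _) (by positivity)
        _ = Real.exp ((s - (w - g) * (l + 1)) * lam) := by
            rw [← Real.exp_nat_mul, ← Real.exp_nat_mul, ← Real.exp_add]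
            congr 1
            push_cast
            ring
        _ ≤ _ := by
            rw [Real.exp_le_exp]
            refine mul_le_mul_of_nonneg_right ?_ hl.le
            have h2 : (s : ℝ) ≤ w := by exact_mod_cast (by omega : s ≤ w)
            have h3 : (j : ℝ) ≤ (l + 1) * w + w := by
              have h4 : (l + 1) * w' ≤ (l + 1) * w := Nat.mul_le_mul_left _ hBw
              have h5 : j ≤ (l + 1) * w + w := by omega
              exact_mod_cast h5
            have h4 : ((w : ℝ) - g) / w * j ≤ ((w : ℝ) - g) / w * ((l + 1) * w + w) :=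
              mul_le_mul_of_nonneg_left h3 hq0
            have h5 : ((w : ℝ) - g) / w * ((l + 1) * w + w) = (w - g) * (l + 1) + (w - g) := by
              field_simp
            have h6 : (0 : ℝ) ≤ g := Nat.cast_nonneg _
            linarith

/-- the form of order `j` at one place -/
theorem locE (v : AbsoluteValue Ω ℝ) (hv : Ul v)
    (hF : ∀ c : F, c ≠ 0 → v (algebraMap F Ω c) = 1) (g w : ℕ) (f : F[X]) (lam : ℝ) (x y : Ω)
    (hw : g + 1 ≤ w) (hfm : f.Monic) (hfd : f.natDegree = 2 * g + 2) (hcu : y ^ 2 = aeval x f)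
    (hl : 0 ≤ lam) (hx : v x ≤ Real.exp lam) (hx' : 0 < lam → v x = Real.exp lam) (j : ℕ) :
    ∃ P Q : F[X], P.natDegree ≤ j + (g + 1) ∧ Q.natDegree ≤ j ∧ Q.coeff j ≠ 0 ∧
      v (aeval x P + aeval x Q * y) ≤ Real.exp ((2 * w - (w - g) / w * j) * lam) := by
  rcases hl.eq_or_lt with h0 | h0
  · refine ⟨0, X ^ j, by rw [natDegree_zero]; exact Nat.zero_le _, (natDegree_X_pow_le _), ?_, ?_⟩
    · rw [coeff_X_pow, if_pos rfl]
      exact one_ne_zero
    · rw [← h0, Real.exp_zero] at hx
      rw [← h0, mul_zero, Real.exp_zero, map_zero, zero_add, map_pow, aeval_X, map_mul]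
      have h1 := v_pow_le hx j
      rw [one_pow] at h1
      have h2 : v y ≤ 1 := by
        have h3 := aeval_le1 v hv.1 hF x hx f
        rw [← hcu, map_pow] at h3
        exact (sq_le_one_iff₀ (v.nonneg y)).1 h3
      exact mul_le_one₀ h1 (v.nonneg _) h2
  · have hx1 := hx' h0
    have hprod : v (y - x ^ (g + 1)) * v (y + x ^ (g + 1)) ≤ Real.exp ((2 * g + 1) * lam) := by
      rw [← map_mul]
      have h1 : (y - x ^ (g + 1)) * (y + x ^ (g + 1)) = aeval x (f - X ^ (2 * g + 2)) := by
        rw [map_sub, ← hcu, map_pow, aeval_X]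
        ring
      have h2 : (f - X ^ (2 * g + 2)).degree < ((2 * g + 2 : ℕ) : WithBot ℕ) := by
        have h3 : f.degree = ((2 * g + 2 : ℕ) : WithBot ℕ) := by
          rw [degree_eq_natDegree hfm.ne_zero, hfd]
        have h4 := degree_sub_lt_left (p := f) (q := X ^ (2 * g + 2)) (by rw [h3, degree_X_pow])
          hfm.ne_zero (by rw [hfm.leadingCoeff, (monic_X_pow _).leadingCoeff])
        rwa [h3] at h4
      rw [h1]
      refine (aeval_large_lt v hv.1 hF x h0 hx1 _ _ h2).trans (Real.exp_le_exp.2 (le_of_eq ?_))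
      push_cast
      ring
    by_cases hy : v (y - x ^ (g + 1)) < Real.exp ((g + 1) * lam)
    · exact locE1 v hv hF g w f lam x y hw hfm hfd hcu h0 hx1 hy j
    · have hy2 : v (-y - x ^ (g + 1)) < Real.exp ((g + 1) * lam) := by
        by_contra h1
        have h2 : -y - x ^ (g + 1) = -(y + x ^ (g + 1)) := by ring
        rw [h2, v.map_neg] at h1
        have h3 := mul_le_mul (not_lt.1 hy) (not_lt.1 h1) (Real.exp_pos _).le (v.nonneg _)
        rw [← Real.exp_add] at h3
        have h4 := h3.trans hprod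
        rw [Real.exp_le_exp] at h4
        nlinarith
      obtain ⟨P, Q, hP, hQ, hQc, hPQ⟩ := locE1 v hv hF g w f lam x (-y) hw hfm hfd
        (by rw [neg_sq]; exact hcu) h0 hx1 hy2 j
      refine ⟨P, -Q, hP, by rw [natDegree_neg]; exact hQ, by rw [coeff_neg]; exact neg_ne_zero.2 hQc,
        ?_⟩
      rw [map_neg]
      have h3 : aeval x P + -aeval x Q * y = aeval x P + aeval x Q * -y := by ring
      rw [h3]
      exact hPQ

end

/-- the order `N` and the degree `w` of the approximations -/
theorem choose_wN (g : ℕ) (L η : ℝ) (hη : 0 < η) (hL : η ≤ L) : ∃ w : ℕ, g + 1 ≤ w ∧ ∃ N : ℕ,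
    ((N + g + 1) * (N + g) / 2 : ℝ) * (L - η) + (2 * w * N - (w - g) / w * (N * (N - 1) / 2)) * L
      < 0 := by
  obtain ⟨w₀, hw₀⟩ := exists_nat_gt (2 * g * L / η)
  set w : ℕ := max w₀ (g + 1) with hw
  have hw1 : g + 1 ≤ w := le_max_right _ _
  have hwr : (0 : ℝ) < w := by exact_mod_cast (by omega : 0 < w)
  have hw2 : 2 * g * L / η < w := lt_of_lt_of_le hw₀ (by exact_mod_cast le_max_left _ _)
  have hL0 : 0 < L := lt_of_lt_of_le hη hL
  have hgL : (g : ℝ) / w * L ≤ η / 2 := by
    rw [div_lt_iff₀ hη] at hw2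
    rw [div_mul_eq_mul_div, div_le_iff₀ hwr]
    linarith
  refine ⟨w, hw1, ?_⟩
  set C : ℝ := (g ^ 2 + 3 * g + 1) * (L - η) / 2 + L / 2 + 2 * w * L with hC
  have hg0 : (0 : ℝ) ≤ g := Nat.cast_nonneg _
  have hC0 : 0 ≤ C := by
    have h1 : 0 ≤ L - η := by linarith
    positivity
  obtain ⟨N, hN⟩ := exists_nat_gt (4 * C / η)
  have hN0 : (0 : ℝ) < N := lt_of_le_of_lt (by positivity) hN
  have hN1 : (1 : ℝ) ≤ N := by
    have : 0 < N := by exact_mod_cast hN0
    exact_mod_cast this
  rw [div_lt_iff₀ hη] at hN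
  refine ⟨N, ?_⟩
  have e1 : ((w : ℝ) - g) / w = 1 - g / w := by field_simp
  have h1 : ((N + g + 1) * (N + g) / 2 : ℝ) ≤ N ^ 2 / 2 + (g ^ 2 + 3 * g + 1) / 2 * N := by
    nlinarith [mul_nonneg hg0 (by linarith : (0 : ℝ) ≤ N - 1),
      mul_nonneg (mul_nonneg hg0 hg0) (by linarith : (0 : ℝ) ≤ N - 1)]
  have h2 := mul_le_mul_of_nonneg_right h1 (by linarith : 0 ≤ L - η)
  have h3 : (g : ℝ) / w * L * (N * (N - 1) / 2) ≤ η / 2 * (N ^ 2 / 2) := by
    refine (mul_le_mul_of_nonneg_right hgL ?_).trans (mul_le_mul_of_nonneg_left ?_ (by linarith))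
    · have : 0 ≤ (N : ℝ) * (N - 1) := mul_nonneg hN0.le (by linarith)
      linarith
    · nlinarith
  rw [e1]
  have h4 : (N : ℝ) * (C - N * (η / 4)) < 0 := by
    refine mul_neg_of_pos_of_neg hN0 ?_
    linarith
  rw [hC] at h4
  nlinarith

section
variable {F Ω : Type} [Field F] [Field Ω] [CharZero Ω] [Algebra F Ω] {I : Type} [Fintype I]
  {r : ℕ}

theorem ul_nu (D : SSF F Ω I r) (i : I) : Ul (D.nu i) := by
  refine ⟨D.ult i, fun q hq => ?_⟩
  have := charZeroF F Ω
  have h : ((q : ℚ) : Ω) = algebraMap F Ω (q : F) := by rw [map_ratCast]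
  rw [h]
  exact D.F1 i _ (by exact_mod_cast hq)

/-- the monomials -/
def eE (x y : Ω) (M N : ℕ) : Fin M ⊕ Fin N → Ω :=
  Sum.elim (fun m => x ^ (m : ℕ)) (fun j => x ^ (j : ℕ) * y)

omit [CharZero Ω] in
/-- independence of the monomials -/
theorem eE_indep (K : IntermediateField F Ω) (f : F[X]) (g : ℕ) (hfd : f.natDegree = 2 * g + 2)
    (hfs : f.Separable) (x y : Ω) (hcu : y ^ 2 = aeval x f) (hx : ¬ IsIntegral K x) (M N : ℕ) :
    LinearIndependent K (eE x y M N) := by
  classical
  have htr : Function.Injective (aeval x : K[X] →ₐ[K] Ω) := by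
    rw [injective_iff_map_eq_zero]
    intro Q hQ
    by_contra h0
    exact hx (isAlgebraic_iff_isIntegral.1 ⟨Q, h0, hQ⟩)
  rw [Fintype.linearIndependent_iff]
  intro u hu
  set A : K[X] := ∑ m : Fin M, C (u (Sum.inl m)) * X ^ (m : ℕ) with hA
  set B : K[X] := ∑ j : Fin N, C (u (Sum.inr j)) * X ^ (j : ℕ) with hB
  set P : K[X] := f.map (algebraMap F K) with hP
  have hE : y ^ 2 = aeval x P := by
    rw [hP, aeval_map_algebraMap]
    exact hcu
  have hPs : P.Separable := hfs.map
  have hPd : P.natDegree = 2 * g + 2 := by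
    rw [hP, natDegree_map, hfd]
  have h1 : aeval x A + aeval x B * y = 0 := by
    rw [← hu, Fintype.sum_sum_type, hA, hB, map_sum, map_sum, Finset.sum_mul]
    congr 1
    · refine Finset.sum_congr rfl fun m _ => ?_
      rw [map_mul, aeval_C, map_pow, aeval_X, Algebra.smul_def]
      rfl
    · refine Finset.sum_congr rfl fun m _ => ?_
      rw [map_mul, aeval_C, map_pow, aeval_X, Algebra.smul_def, mul_assoc]
      rfl
  have h2 : A ^ 2 = B ^ 2 * P := by
    apply htr
    rw [map_pow, map_mul, map_pow, ← hE]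
    linear_combination (aeval x A - aeval x B * y) * h1
  have hB0 : B = 0 := by
    by_contra hB0
    have h3 : B ∣ A := (IsIntegrallyClosed.pow_dvd_pow_iff two_ne_zero).1 ⟨P, h2⟩
    obtain ⟨Q, hQ⟩ := h3
    have h4 : P = Q * Q := by
      have h5 : B ^ 2 * P = B ^ 2 * (Q * Q) := by
        rw [← h2, hQ]
        ring
      exact mul_left_cancel₀ (pow_ne_zero 2 hB0) h5
    have h5 : IsUnit Q := hPs.squarefree Q ⟨1, by rw [h4, mul_one]⟩
    have h6 := natDegree_eq_zero_of_isUnit h5
    have h7 : P.natDegree ≤ Q.natDegree + Q.natDegree := by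
      conv_lhs => rw [h4]
      exact natDegree_mul_le
    omega
  have hA0 : A = 0 := by
    rw [hB0] at h2
    have : A ^ 2 = 0 := by rw [h2]; ring
    exact pow_eq_zero_iff (two_ne_zero) |>.1 this
  have key : ∀ (n : ℕ) (a : Fin n → K), ∑ m : Fin n, C (a m) * X ^ (m : ℕ) = 0 →
      ∀ m, a m = 0 := by
    intro n a ha m
    have h3 := congrArg (fun Q : K[X] => Q.coeff (m : ℕ)) ha
    simp only [finsetSum_coeff, coeff_zero, coeff_C_mul, coeff_X_pow] at h3
    rw [Finset.sum_eq_single m] at h3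
    · simpa using h3
    · intro i _ him
      rw [if_neg (fun h => him (Fin.ext h.symm)), mul_zero]
    · intro h4
      exact absurd (Finset.mem_univ m) h4
  rintro (m | j)
  · exact key M (fun m => u (Sum.inl m)) hA0 m
  · exact key N (fun j => u (Sum.inr j)) hB0 j

omit [CharZero Ω] in
theorem aeval_span (K : IntermediateField F Ω) (x : Ω) (S : Submodule K Ω) (n : ℕ) (P : K[X])
    (hP : P.degree < (n : WithBot ℕ)) (h : ∀ m, m < n → x ^ m ∈ S) : aeval x P ∈ S := by
  rw [aeval_def, eval₂_eq_sum_range]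
  refine sum_mem fun m hm => ?_
  by_cases h0 : P = 0
  · rw [h0, coeff_zero, map_zero, zero_mul]
    exact zero_mem _
  rw [degree_eq_natDegree h0] at hP
  have hP' : P.natDegree < n := by exact_mod_cast hP
  have h1 : algebraMap K Ω (P.coeff m) * x ^ m = P.coeff m • x ^ m := by
    rw [Algebra.smul_def]
  rw [h1]
  exact Submodule.smul_mem _ _ (h m (by have := Finset.mem_range.1 hm; omega))

omit [CharZero Ω] in
theorem aeval_span_mul (K : IntermediateField F Ω) (x y : Ω) (S : Submodule K Ω) (n : ℕ)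
    (P : K[X]) (hP : P.degree < (n : WithBot ℕ)) (h : ∀ m, m < n → x ^ m * y ∈ S) :
    aeval x P * y ∈ S := by
  rw [aeval_def, eval₂_eq_sum_range, Finset.sum_mul]
  refine sum_mem fun m hm => ?_
  by_cases h0 : P = 0
  · rw [h0, coeff_zero, map_zero, zero_mul, zero_mul]
    exact zero_mem _
  rw [degree_eq_natDegree h0] at hP
  have hP' : P.natDegree < n := by exact_mod_cast hP
  have h1 : algebraMap K Ω (P.coeff m) * x ^ m * y = P.coeff m • (x ^ m * y) := by
    rw [Algebra.smul_def, mul_assoc]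
  rw [h1]
  exact Submodule.smul_mem _ _ (h m (by have := Finset.mem_range.1 hm; omega))

theorem sum_fin_id (n : ℕ) : ∑ m : Fin n, ((m : ℕ) : ℝ) = n * (n - 1) / 2 := by
  rw [Fin.sum_univ_eq_sum_range (fun m => (m : ℝ)) n]
  induction n with
  | zero => simp
  | succ n ih =>
    rw [Finset.sum_range_succ, ih]
    push_cast
    ring

/-- **(ALGE)** -/
theorem ALGE : ST_ALGE := by
  intro F Ω _ _ _ _ I _ r D g f x y R i₀ hfm hfd hfs hxO hyO hcu hR h1x hxR
  classical
  by_contra hx
  -- the sizes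
  set lam : I → ℝ := fun i => Real.log (max (D.nu i x) 1) with hlam
  have hmax : ∀ i, (1 : ℝ) ≤ max (D.nu i x) 1 := fun i => le_max_right _ _
  have hlam0 : ∀ i, 0 ≤ lam i := fun i => Real.log_nonneg (hmax i)
  have hexp : ∀ i, Real.exp (lam i) = max (D.nu i x) 1 := fun i =>
    Real.exp_log (lt_of_lt_of_le one_pos (hmax i))
  have hxl : ∀ i, D.nu i x ≤ Real.exp (lam i) := fun i => by
    rw [hexp]
    exact le_max_left _ _
  have hxe : ∀ i, 0 < lam i → D.nu i x = Real.exp (lam i) := by
    intro i hi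
    have h1 := Real.one_lt_exp_iff.2 hi
    rw [hexp] at h1 ⊢
    rcases lt_max_iff.1 h1 with h2 | h2
    · rw [max_eq_left h2.le]
    · exact absurd h2 (lt_irrefl _)
  set c : ℝ := Real.log (max (D.nu i₀ (x - R)) 1) with hc
  have hc0 : 0 ≤ c := Real.log_nonneg (le_max_right _ _)
  have hce : Real.exp c = max (D.nu i₀ (x - R)) 1 :=
    Real.exp_log (lt_of_lt_of_le one_pos (le_max_right _ _))
  have hcl : c < lam i₀ := by
    rw [← Real.exp_lt_exp, hce, hexp, max_eq_left h1x.le]
    exact max_lt hxR h1x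
  set L : ℝ := ∑ i, lam i with hL
  have hLl : lam i₀ ≤ L := Finset.single_le_sum (fun i _ => hlam0 i) (Finset.mem_univ i₀)
  obtain ⟨w, hw, N, hN⟩ := choose_wN g L (lam i₀ - c) (by linarith) (by linarith)
  -- the forms
  have hform := fun i (j : Fin N) => locE (D.nu i) (ul_nu D i) (D.F1 i) g w f (lam i) x y hw hfm hfd
    hcu (hlam0 i) (hxl i) (hxe i) (j : ℕ)
  choose P Q hP hQ hQc hPQ using hform
  set M : ℕ := N + g + 1 with hM
  have hind := eE_indep D.K f g hfd hfs x y hcu hx M N
  set ff : I → Fin M ⊕ Fin N → Ω := fun i => Sum.elim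
    (fun m => if i = i₀ then (x - R) ^ (m : ℕ) else x ^ (m : ℕ))
    (fun j => aeval x (P i j) + aeval x (Q i j) * y) with hff
  set gg : I → Fin M ⊕ Fin N → Ω := fun i => Sum.elim (fun _ => 1)
    (fun j => algebraMap F Ω ((Q i j).coeff j)) with hgg
  set ρ : I → Fin M ⊕ Fin N → ℕ := fun _ => Sum.elim (fun m => 2 * (m : ℕ))
    (fun j => 2 * ((j : ℕ) + (g + 1)) + 1) with hρ
  have hX : ∀ (i : I) (k : Fin M ⊕ Fin N) (m : ℕ), m < M → 2 * m < ρ i k →
      x ^ m ∈ Submodule.span D.K (eE x y M N '' {l | ρ i l < ρ i k}) := by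
    intro i k m hm h
    exact Submodule.subset_span ⟨Sum.inl ⟨m, hm⟩, h, rfl⟩
  have hY : ∀ (i : I) (k : Fin M ⊕ Fin N) (m : ℕ), m < N → 2 * (m + (g + 1)) + 1 < ρ i k →
      x ^ m * y ∈ Submodule.span D.K (eE x y M N '' {l | ρ i l < ρ i k}) := by
    intro i k m hm h
    exact Submodule.subset_span ⟨Sum.inr ⟨m, hm⟩, h, rfl⟩
  have key := gskP D (eE x y M N) ff gg ρ (by
      rintro (m | j)
      · exact pow_mem hxO _
      · exact D.O.mul_mem (pow_mem hxO _) hyO) hind (by
      rintro i (m | j)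
      · exact ⟨D.K.one_mem, one_ne_zero⟩
      · refine ⟨D.K.algebraMap_mem _, ?_⟩
        show algebraMap F Ω ((Q i j).coeff j) ≠ 0
        rw [Ne, map_eq_zero]
        exact hQc i j) (by
      rintro i (m | j)
      · show (if i = i₀ then (x - R) ^ (m : ℕ) else x ^ (m : ℕ)) - 1 * x ^ (m : ℕ) ∈ _
        split_ifs with hi
        · set R' : D.K := ⟨R, hR⟩ with hR'
          have h1 : (x - R) ^ (m : ℕ) - 1 * x ^ (m : ℕ) =
              aeval x ((X - C R') ^ (m : ℕ) - X ^ (m : ℕ)) := by
            rw [map_sub, map_pow, map_pow, map_sub, aeval_X, aeval_C, one_mul]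
            rfl
          rw [h1]
          refine aeval_span D.K x _ (m : ℕ) _ ?_ (fun m' hm' => hX i _ m' (hm'.trans m.2) ?_)
          · have h2 : ((X - C R') ^ (m : ℕ)).Monic := (monic_X_sub_C _).pow _
            have h3 : ((X - C R') ^ (m : ℕ)).degree = ((m : ℕ) : WithBot ℕ) := by
              rw [degree_pow, degree_X_sub_C, nsmul_one]
            have h4 := degree_sub_lt_left (p := (X - C R') ^ (m : ℕ)) (q := X ^ (m : ℕ))
              (by rw [h3, degree_X_pow]) h2.ne_zero
              (by rw [h2.leadingCoeff, (monic_X_pow _).leadingCoeff])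
            rwa [h3] at h4
          · show 2 * m' < 2 * (m : ℕ)
            omega
        · rw [one_mul, sub_self]
          exact zero_mem _
      · show (aeval x (P i j) + aeval x (Q i j) * y) -
          algebraMap F Ω ((Q i j).coeff j) * (x ^ (j : ℕ) * y) ∈ _
        have h1 : (aeval x (P i j) + aeval x (Q i j) * y) -
            algebraMap F Ω ((Q i j).coeff j) * (x ^ (j : ℕ) * y) =
            aeval x ((P i j).map (algebraMap F D.K)) +
            aeval x ((Q i j - C ((Q i j).coeff j) * X ^ (j : ℕ)).map (algebraMap F D.K)) * y := by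
          rw [aeval_map_algebraMap, aeval_map_algebraMap, map_sub, map_mul, aeval_C, map_pow,
            aeval_X]
          ring
        rw [h1]
        refine add_mem (aeval_span D.K x _ ((j : ℕ) + (g + 1) + 1) _ ?_
          (fun m' hm' => hX i _ m' (by omega) ?_))
          (aeval_span_mul D.K x y _ (j : ℕ) _ ?_
          (fun m' hm' => hY i _ m' (hm'.trans j.2) ?_))
        · refine lt_of_le_of_lt (degree_map_le.trans (degree_le_of_natDegree_le (hP i j))) ?_
          exact_mod_cast Nat.lt_succ_self _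
        · show 2 * m' < 2 * ((j : ℕ) + (g + 1)) + 1
          omega
        · refine lt_of_le_of_lt degree_map_le ?_
          rw [degree_lt_iff_coeff_zero]
          intro m hm
          rw [coeff_sub, coeff_C_mul, coeff_X_pow]
          rcases Nat.eq_or_lt_of_le hm with h | h
          · rw [if_pos h.symm, h, mul_one, sub_self]
          · rw [if_neg h.ne', mul_zero, sub_zero]
            exact coeff_eq_zero_of_natDegree_lt (lt_of_le_of_lt (hQ i j) h)
        · show 2 * (m' + (g + 1)) + 1 < 2 * ((j : ℕ) + (g + 1)) + 1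
          omega)
  -- the sizes
  have hprod : ∏ i, ∏ k, D.nu i (ff i k) / D.nu i (gg i k) < 1 := by
    have h1 : ∀ i, ∏ k, D.nu i (ff i k) / D.nu i (gg i k) ≤
        Real.exp (((N + g + 1) * (N + g) / 2 : ℝ) * (lam i - if i = i₀ then lam i₀ - c else 0) +
          (2 * w * N - (w - g) / w * (N * (N - 1) / 2)) * lam i) := by
      intro i
      rw [Fintype.prod_sum_type, Real.exp_add]
      refine mul_le_mul ?_ ?_ (Finset.prod_nonneg fun _ _ => div_nonneg ((D.nu i).nonneg _)
        ((D.nu i).nonneg _)) (Real.exp_pos _).le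
      · have h2 : ∀ m : Fin M, D.nu i (ff i (Sum.inl m)) / D.nu i (gg i (Sum.inl m)) ≤
            Real.exp (((m : ℕ) : ℝ) * (lam i - if i = i₀ then lam i₀ - c else 0)) := by
          intro m
          show D.nu i (if i = i₀ then (x - R) ^ (m : ℕ) else x ^ (m : ℕ)) / D.nu i 1 ≤ _
          rw [(D.nu i).map_one, div_one, Real.exp_nat_mul]
          split_ifs with hi
          · refine v_pow_le ?_ _
            rw [hi, sub_sub_cancel, hce]
            exact le_max_left _ _
          · rw [sub_zero]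
            exact v_pow_le (hxl i) _
        refine (Finset.prod_le_prod (fun _ _ => div_nonneg ((D.nu i).nonneg _)
          ((D.nu i).nonneg _)) fun m _ => h2 m).trans (le_of_eq ?_)
        rw [← Real.exp_sum, ← Finset.sum_mul, sum_fin_id]
        congr 2
        rw [hM]
        push_cast
        ring
      · have h2 : ∀ j : Fin N, D.nu i (ff i (Sum.inr j)) / D.nu i (gg i (Sum.inr j)) ≤
            Real.exp ((2 * w - (w - g) / w * ((j : ℕ) : ℝ)) * lam i) := by
          intro j
          show D.nu i (aeval x (P i j) + aeval x (Q i j) * y) /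
            D.nu i (algebraMap F Ω ((Q i j).coeff j)) ≤ _
          rw [D.F1 i _ (hQc i j), div_one]
          exact hPQ i j
        refine (Finset.prod_le_prod (fun _ _ => div_nonneg ((D.nu i).nonneg _)
          ((D.nu i).nonneg _)) fun m _ => h2 m).trans (le_of_eq ?_)
        rw [← Real.exp_sum, ← Finset.sum_mul, Finset.sum_sub_distrib, Finset.sum_const,
          ← Finset.mul_sum, sum_fin_id, Finset.card_univ, Fintype.card_fin, nsmul_eq_mul]
        congr 2
        ring
    refine lt_of_le_of_lt (Finset.prod_le_prod (fun i _ => Finset.prod_nonneg fun k _ =>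
      div_nonneg ((D.nu i).nonneg _) ((D.nu i).nonneg _)) (fun i _ => h1 i)) ?_
    rw [← Real.exp_sum, Real.exp_lt_one_iff, Finset.sum_add_distrib, ← Finset.mul_sum,
      ← Finset.mul_sum, Finset.sum_sub_distrib, Finset.sum_ite_eq' Finset.univ i₀,
      if_pos (Finset.mem_univ _)]
    exact hN
  exact absurd key (not_le.2 hprod)

end

end Pool.Agent.Helper77.HE
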