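import Pool.Agent.Helper71.HN.AsmO
import Pool.Agent.Helper77.HE.Brgg
import Pool.Agent.Helper20.HN.T1G
import Pool.Agent.Helper2.HN.FING

/-! Assembly of project HG (sheet G). -/

set_option autoImplicit false

namespace Pool.Agent.Helper77.HM

open Pool.Agent.Helper70.SUB Pool.Agent.Helper70.SUBL Pool.Agent.Helper77.SUBK
  Pool.Agent.Helper70.SUBW Pool.Agent.Helper71.JN Pool.Agent.Helper71.HN
  Pool.Agent.Helper71.HZ Pool.Agent.Helper71.HE

theorem g_tr : ST_TREM := TREM h_dex h_ltr Pool.Agent.Helper28.HN.DEL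
  Pool.Agent.Helper28.HN.DBD (Pool.Agent.Helper25.HN.PIV j_rk)
  (Pool.Agent.Helper2.HN.PRQ j_prim j_rk) j_rk Pool.Agent.Helper89.HE.WPTE
  Pool.Agent.Helper89.HE.NPTE
theorem g_brg : ST_BRGG := BRGG j_mong j_ssfx j_rdx j_omg j_osr g_tr w_slw (OIC j_omg)
theorem g_t1 : ST_T1G := Pool.Agent.Helper20.HM.T1G w_slw u_sph g_brg
/-- rational points near sparse numbers or near roots of small polynomials -/
theorem g_fin : ST_FING := Pool.Agent.Helper2.HM.FING g_t1 Pool.Agent.Helper18.HE.SUBE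
  Pool.Agent.Helper25.HN.HCO e_htt e_fld Pool.Agent.Helper28.HZ.EMB

end Pool.Agent.Helper77.HM
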