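import Pool.Agent.Helper77.HE.SheetG1

/-!
Project HG2 (MP_2a8cc2_nt): sheet G1 where a place at which `x` is large and near an element of
`K` may have a negative cost `s` (the full `s`, not `s / 2`). So all quotients `x = p / q` of sparse
numbers which are large at one place are included (cost `- B h` there), and for `K = ℚ` the
condition is `den x * |x - p / q| ≤ |x| ^ (1 - δ)`. The cost `s i` replaces `max (c i) (c i / 2)`. -/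

set_option autoImplicit false

namespace Pool.Agent.Helper77.HM

open Polynomial Filter Finset Pool.Agent.Helper70.SUB Pool.Agent.Helper77.SUBK
  Pool.Agent.Helper70.SUBL Pool.Agent.Helper70.SUBW Pool.Agent.Helper71.JN Pool.Agent.Helper71.HN
  Pool.Agent.Helper71.HZ Pool.Agent.Helper71.HE Pool.Agent.Helper71.HO Pool.Agent.Helper77.HE
  Pool.Agent.Helper71.HX

/-- (LOCA2) `ST_LOCA` without `0 ≤ c`: SQR with a natural number `J`,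
`(2 * N + g + 1) * (2 * lam - c) ≤ J * lam` -/
def ST_LOCA2 : Prop := ∀ (F Ω : Type) [Field F] [Field Ω] [CharZero Ω] [Algebra F Ω]
  (K : IntermediateField F Ω) (v : AbsoluteValue Ω ℝ) (g N : ℕ) (f : F[X]) (lam c : ℝ)
  (x y t₀ : Ω), Ul v → (∀ c : F, c ≠ 0 → v (algebraMap F Ω c) = 1) → f.Monic →
  f.natDegree = 2 * g + 2 → y ^ 2 = aeval x f → 0 < lam → v x = Real.exp lam → t₀ ∈ K →
  v t₀ ≤ 1 → c ≤ lam → v (x⁻¹ - t₀) ≤ Real.exp (c - 2 * lam) →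
  ∃ W : ℕ → Submodule K ((Fin (N + g + 1) ⊕ Fin N) → K),
    (∀ b, b < 2 * N + g + 1 → 2 * N + g + 1 ≤ Module.finrank K (W b) + b) ∧
    ∀ b, b < 2 * N + g + 1 → ∀ u ∈ W b, (∀ k, v (u k : Ω) ≤ 1) →
      v (∑ k, (u k : Ω) * eE x y (N + g + 1) N k) ≤
        Real.exp ((N + g) * lam + b * (c - 2 * lam))

/-- (ALGO2) `ST_ALGO` with costs `s i`: in `Helper72.HX.flag_place` the pole place with `R` near and
`s < lam` uses LOCA2 (`s` may be negative); `G`: `c = min s (2 s)`, `max c (c / 2) = s` -/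
def ST_ALGO2 : Prop := ∀ (F Ω : Type) [Field F] [Field Ω] [CharZero Ω] [Algebra F Ω] (I : Type)
  [Fintype I] (r : ℕ) (D : SSF F Ω I r) (K : IntermediateField F Ω) (_ : GSKP D K) (g : ℕ)
  (f : F[X]) (m x y : Ω) (s : I → ℝ), f.Monic → f.natDegree = 2 * g + 2 → f.Separable → m ≠ 0 →
  m ∈ D.O → m * x ∈ D.O → m ^ (g + 1) * y ∈ D.O → y ^ 2 = aeval x f →
  (∀ i, ((0 ≤ s i ∨ 1 < D.nu i x) ∧ ∃ R ∈ K, D.nu i (x - R) ≤ Real.exp (s i)) ∨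
    ∃ G : F[X], G.Monic ∧ 1 ≤ G.natDegree ∧
      D.nu i (aeval x G) ≤ Real.exp (G.natDegree * min (s i) (2 * s i))) →
  ∑ i, Real.log (D.nu i m) + ∑ i, s i < ∑ i, Real.log (max 1 (D.nu i x)) →
  IsIntegral K x

/-- the hypotheses -/
structure HG2 {F Ω : Type} [Field F] [Field Ω] [Algebra F Ω] {I : Type} [Fintype I] {r : ℕ}
    (D : SSF F Ω I r) (g : ℕ) (f : F[X]) (m x y : Ω) (s : I → ℝ) : Prop where
  hg : 1 ≤ g
  fm : f.Monic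
  fd : f.natDegree = 2 * g + 2
  fs : f.Separable
  ic : ∀ z : Ω, IsIntegral D.R z → z ∈ D.O
  m0 : m ≠ 0
  mO : m ∈ D.O
  xO : m * x ∈ D.O
  yO : m ^ (g + 1) * y ∈ D.O
  cu : y ^ 2 = aeval x f
  nx : ¬ IsIntegral F x
  near : ∀ i, ((0 ≤ s i ∨ 1 < D.nu i x) ∧ ∃ R ∈ D.K, D.nu i (x - R) ≤ Real.exp (s i)) ∨
    ∃ G : F[X], G.Monic ∧ 1 ≤ G.natDegree ∧
      D.nu i (aeval x G) ≤ Real.exp (G.natDegree * min (s i) (2 * s i))
  main : ∑ i, Real.log (D.nu i m) + ∑ i, s i < ∑ i, Real.log (max 1 (D.nu i x))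

/-- **(HEARTG2)** -/
theorem HEARTG2 (hTREM : ST_TREM) (hALGO : ST_ALGO2) {F Ω : Type} [Field F] [Field Ω]
    [CharZero Ω] [Algebra F Ω] {I : Type} [Fintype I] {r : ℕ} (D : SSF F Ω I r) (g : ℕ) (f : F[X])
    (m x y : Ω) (s : I → ℝ) (H : HG2 D g f m x y s) : False := by
  classical
  by_cases h1 : ∃ i, ∃ R ∈ D.K, 1 < D.nu i x ∧ D.nu i (x - R) < D.nu i x
  · obtain ⟨i₀, R, hR, h2, h3⟩ := h1
    have hx : IsIntegral D.K x := hALGO F Ω I r D D.K (gskK D) g f m x y s H.fm H.fd H.fs H.m0 H.mO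
      H.xO H.yO H.cu H.near H.main
    exact hTREM F Ω I r D g f x y i₀ R
      { hg := H.hg
        fm := H.fm
        fd := H.fd
        fs := H.fs
        ic := H.ic
        cu := H.cu
        RR := hR
        x1 := h2
        xR := h3 } hx
  · have h2 : ∀ i, ∀ R ∈ D.K, 1 < D.nu i x → D.nu i x ≤ D.nu i (x - R) := by
      intro i R hR hi
      by_contra h3
      exact h1 ⟨i, R, hR, hi, not_le.1 h3⟩
    have hG : ∀ i, ∃ s' : ℝ, (((0 ≤ s' ∨ 1 < D.nu i x) ∧ ∃ R ∈ (⊥ : IntermediateField F Ω),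
        D.nu i (x - R) ≤ Real.exp s') ∨
        ∃ G : F[X], G.Monic ∧ 1 ≤ G.natDegree ∧
          D.nu i (aeval x G) ≤ Real.exp (G.natDegree * min s' (2 * s'))) ∧ s' ≤ s i := by
      intro i
      rcases H.near i with ⟨h0, R, hR, h4⟩ | h4
      · refine ⟨Real.log (max (D.nu i x) 1), Or.inl ⟨Or.inl (Real.log_nonneg (le_max_right _ _)),
          0, (⊥ : IntermediateField F Ω).zero_mem, ?_⟩, ?_⟩
        · rw [sub_zero, Real.exp_log (lt_of_lt_of_le one_pos (le_max_right _ _))]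
          exact le_max_left _ _
        · rcases le_or_gt (D.nu i x) 1 with h5 | h5
          · rw [max_eq_right h5, Real.log_one]
            rcases h0 with h0 | h0
            · exact h0
            · exact absurd h0 (not_lt.2 h5)
          · rw [max_eq_left h5.le, Real.log_le_iff_le_exp (by linarith)]
            exact (h2 i R hR h5).trans h4
      · exact ⟨s i, Or.inr h4, le_rfl⟩
    choose s' hs hs' using hG
    have hx : IsIntegral (⊥ : IntermediateField F Ω) x := by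
      refine hALGO F Ω I r D ⊥ (gskF D) g f m x y s' H.fm H.fd H.fs H.m0 H.mO H.xO H.yO H.cu hs ?_
      have h3 : ∑ i, s' i ≤ ∑ i, s i := Finset.sum_le_sum fun i _ => hs' i
      have h4 := H.main
      linarith
    exact H.nx (int_bot hx)

/-- (BRGG2) as `ST_BRGG1`, with costs `s` and the sizes `exp s`, `X ^ θ ≤ |x|` -/
def ST_BRGG2 : Prop := ∀ (M : Type) [Field M] [NumberField M] [IsGalois ℚ M] (S S₀ : Finset ℕ)
  (P : PF S M) (φ : Ultrafilter ℕ) (k : Option ℕ → (M ≃ₐ[ℚ] M) → ℕ) (g : ℕ) (a : ℕ → ℕ → M)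
  (m : ℕ → ℕ) (x y : ℕ → M) (X : ℕ → ℝ) (p q : Option ℕ → (M ≃ₐ[ℚ] M) → ℕ → M)
  (e : Option ℕ → (M ≃ₐ[ℚ] M) → ℕ → ℕ → M)
  (s : Option ℕ → (M ≃ₐ[ℚ] M) → ℕ → ℝ) (A η θ : ℝ), (∀ p ∈ S, p.Prime) →
  S₀ ⊆ S → 1 ≤ g → 0 < η → 0 < θ → Tendsto X (φ : Filter ℕ) atTop →
  (∀ o ∈ plc S₀, ∀ σ, k o σ = 0 → SpM P φ X (p o σ) ∧ SpM P φ X (q o σ)) →
  (∀ o ∈ plc S₀, ∀ σ, 1 ≤ k o σ → ∀ i, i < k o σ → Slw P φ X (e o σ i)) →
  (∀ i, i < 2 * g + 2 → Slw P φ X (a i)) → IntT S₀ φ X (fun j => (m j : M) * x j) →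
  IntT S₀ φ X (fun j => (m j : M) ^ (g + 1) * y j) → ¬ Slw P φ X x →
  (∀ᶠ j in (φ : Filter ℕ), (polD M (2 * g + 2) (fun i => a i j)).Separable ∧
    y j ^ 2 = (polD M (2 * g + 2) (fun i => a i j)).eval (x j) ∧ m j ≠ 0 ∧
    (m j : ℝ) ≤ X j ^ A ∧
    (∀ o ∈ plc S, ∀ σ : M ≃ₐ[ℚ] M, P.nv o (σ (x j)) ≤ X j ^ A) ∧
    (∀ o ∈ plc S₀, ∀ σ : M ≃ₐ[ℚ] M, -(A * Real.log (X j)) ≤ s o σ j ∧
      (1 ≤ k o σ → P.nv o (σ ((polD M (k o σ) (fun i => e o σ i j)).eval (x j))) ≤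
        Real.exp (k o σ * min (s o σ j) (2 * s o σ j))) ∧
      (k o σ = 0 → (0 ≤ s o σ j ∨ X j ^ θ ≤ P.nv o (σ (x j))) ∧ q o σ j ≠ 0 ∧
        P.nv o (σ (x j - p o σ j / q o σ j)) ≤ Real.exp (s o σ j))) ∧
    (Fintype.card (M ≃ₐ[ℚ] M) : ℝ) * Real.log (m j) +
      ∑ o ∈ plc S₀, ∑ σ : M ≃ₐ[ℚ] M, s o σ j + η * Real.log (X j) ≤
      ∑ o ∈ plc S₀, ∑ σ : M ≃ₐ[ℚ] M, Real.log (max 1 (P.nv o (σ (x j))))) → False

/-- (T1G2) as `ST_T1G1` -/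
def ST_T1G2 : Prop := ∀ (M : Type) [Field M] [NumberField M] [IsGalois ℚ M] (S S₀ : Finset ℕ)
  (P : PF S M) (k : Option ℕ → (M ≃ₐ[ℚ] M) → ℕ) (t g : ℕ) (κ δ θ B : ℝ), (∀ p ∈ S, p.Prime) →
  S₀ ⊆ S → 1 ≤ g → 0 < δ → 0 < θ → 0 < B →
  ∃ C : ℝ, 0 < C ∧ ∀ (F : M[X]) (x y sq : M) (H T : ℝ) (m : ℕ)
    (c d a b : Option ℕ → (M ≃ₐ[ℚ] M) → Fin t → M) (e : Option ℕ → (M ≃ₐ[ℚ] M) → ℕ → M)
    (s : Option ℕ → (M ≃ₐ[ℚ] M) → ℝ), 0 ≤ H → F.natDegree = 2 * g + 2 → F.Separable →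
    y ^ 2 = F.eval x → F.coeff (2 * g + 2) = sq ^ 2 →
    (∀ i, HBZ P.emb (Real.exp (κ * (H + 1))) (F.coeff i)) → m ≠ 0 → SI S₀ ((m : M) * x) →
    (m : ℝ) ≤ Real.exp (B * T) →
    (∀ o ∈ plc S, ∀ σ : M ≃ₐ[ℚ] M, P.nv o (σ x) ≤ Real.exp (B * T)) →
    ¬ HBZ P.emb (Real.exp (T / B)) x →
    (∀ o ∈ plc S₀, ∀ σ, -(B * T) ≤ s o σ ∧
      (1 ≤ k o σ → (∀ i, HBZ P.emb (Real.exp (κ * (H + 1))) (e o σ i)) ∧
        P.nv o (σ ((polD M (k o σ) (e o σ)).eval x)) ≤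
          Real.exp (k o σ * min (s o σ) (2 * s o σ))) ∧
      (k o σ = 0 → (0 ≤ s o σ ∨ Real.exp (θ * T) ≤ P.nv o (σ x)) ∧
        (∀ i, SV S (a o σ i)) ∧ (∀ i, SV S (b o σ i)) ∧
        (∀ i, HBZ P.emb (Real.exp (κ * (H + 1))) (c o σ i)) ∧
        (∀ i, HBZ P.emb (Real.exp (κ * (H + 1))) (d o σ i)) ∧
        HBZ P.emb (Real.exp (B * T)) (∑ i, c o σ i * a o σ i) ∧
        HBZ P.emb (Real.exp (B * T)) (∑ i, d o σ i * b o σ i) ∧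
        ∑ i, d o σ i * b o σ i ≠ 0 ∧
        P.nv o (σ (x - (∑ i, c o σ i * a o σ i) / ∑ i, d o σ i * b o σ i)) ≤
          Real.exp (s o σ))) →
    (Fintype.card (M ≃ₐ[ℚ] M) : ℝ) * Real.log m +
      ∑ o ∈ plc S₀, ∑ σ : M ≃ₐ[ℚ] M, s o σ + δ * T ≤
      ∑ o ∈ plc S₀, ∑ σ : M ≃ₐ[ℚ] M, Real.log (max 1 (P.nv o (σ x))) →
    T ≤ C * (H + 1)

/-- at the place `o` of `ℚ`, extended by `τ`, and with the cost `s`: `|G z| ≤ exp (deg G * min s (2 s))`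
for a monic polynomial `G` of degree `≤ n` with coefficients of height `≤ L`; or `|z - p / q| ≤ exp s`
for a quotient of sparse numbers, and `s ≥ 0` or `|z| ≥ exp E` -/
def NearG2 {K : Type} [Field K] (h : K → ℝ) (Γ : Subgroup Kˣ) (t n : ℕ) (L N E : ℝ)
    (w : ℕ → AbsoluteValue ℂ ℝ) (z : K) (o : Option ℕ) (τ : K →+* ℂ) (s : ℝ) : Prop :=
  (∃ G : K[X], G.Monic ∧ 1 ≤ G.natDegree ∧ G.natDegree ≤ n ∧ (∀ i, h (G.coeff i) ≤ L) ∧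
    pv w o (τ (G.eval z)) ≤ Real.exp (G.natDegree * min s (2 * s))) ∨
  ((0 ≤ s ∨ Real.exp E ≤ pv w o (τ z)) ∧ ∃ p q : K, SumOf h Γ t L p ∧ SumOf h Γ t L q ∧
    h p ≤ N ∧ h q ≤ N ∧ q ≠ 0 ∧ pv w o (τ (z - p / q)) ≤ Real.exp s)

/-- (FING2) the final theorem, as `ST_FING1` -/
def ST_FING2 : Prop := ∀ (K : Type) [Field K] [NumberField K] (h : K → ℝ), IsHt K h →
  ∀ (S : Finset ℕ) (w : ℕ → AbsoluteValue ℂ ℝ), Ext S w →
  ∀ (Γ : Subgroup Kˣ) (t n d : ℕ) (κ δ B : ℝ), Γ.FG → 3 ≤ d → 0 < δ →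
    ∃ C₁ C₂ : ℝ, 0 < C₁ ∧ 0 < C₂ ∧ ∀ F : K[X], F.natDegree = d → F.Separable →
      ∀ x y : K, y ^ 2 = F.eval x → ∀ H : ℝ, (∀ i, h (F.coeff i) ≤ H) →
        ∀ z : K, ((Even d ∧ SqClass Γ (F.coeff d) ∧ x = z) ∨
          ∃ e : K, h e ≤ κ * (H + 1) ∧ F.eval e ≠ 0 ∧ SqClass Γ (F.eval e) ∧ z ≠ 0 ∧
            x = e + 1 / z) →
        ∀ (m : ℕ) (s : Option ℕ → (K →+* ℂ) → ℝ), m ≠ 0 → SI S ((m : K) * z) →
          (∀ o ∈ plc S, ∀ τ, -(B * h x) ≤ s o τ ∧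
            NearG2 h Γ t n (κ * (H + 1)) (B * h x) (δ * h x) w z o τ (s o τ)) →
          (Module.finrank ℚ K : ℝ) * Real.log m +
            ∑ o ∈ plc S, ∑ τ : K →+* ℂ, s o τ + δ * h x ≤
            ∑ o ∈ plc S, ∑ τ : K →+* ℂ, Real.log (max 1 (pv w o (τ z))) →
          h x ≤ C₁ * H + C₂

end Pool.Agent.Helper77.HM
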