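import Pool.Agent.Helper77.HE.AsmX
import Pool.Agent.Helper77.HE.Brgg2
import Pool.Agent.Helper84.HN.LOCA2
import Pool.Agent.Helper72.HG.ALGO2
import Pool.Agent.Helper34.HM.T1G2
import Pool.Agent.Helper91.HE.FING2

/-! Assembly of sheet G2. -/

set_option autoImplicit false

namespace Pool.Agent.Helper77.HM

open Pool.Agent.Helper70.SUB Pool.Agent.Helper70.SUBL Pool.Agent.Helper77.SUBK
  Pool.Agent.Helper70.SUBW Pool.Agent.Helper71.JN Pool.Agent.Helper71.HN
  Pool.Agent.Helper71.HZ Pool.Agent.Helper71.HE Pool.Agent.Helper71.HX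

theorem g2_loca : ST_LOCA2 := Pool.Agent.Helper84.HG2.LOCA2 Pool.Agent.Helper91.HX.div
  Pool.Agent.Helper91.HX.sqr

theorem g2_algo : ST_ALGO2 := Pool.Agent.Helper72.HG.ALGO2 Pool.Agent.Helper77.HE.FLG g2_loca
  (Pool.Agent.Helper91.HX.locc Pool.Agent.Helper91.HX.div)

theorem g2_brg : ST_BRGG2 := BRGG2 j_mong j_ssfx j_rdx j_omg j_osr g_tr w_slw (OIC j_omg) g2_algo

theorem g2_t1 : ST_T1G2 := Pool.Agent.Helper34.HM.T1G2 w_slw u_sph g2_brg

/-- rational points near sparse numbers or near roots of small polynomials, with costs -/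
theorem g2_fin : ST_FING2 := Pool.Agent.Helper91.HE.FING2 g2_t1 Pool.Agent.Helper18.HE.SUBE
  Pool.Agent.Helper25.HN.HCO e_htt e_fld Pool.Agent.Helper28.HZ.EMB

end Pool.Agent.Helper77.HM
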