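import Pool.Agent.Helper77.HE.AsmG2
import Pool.Agent.Helper34.HM.T1G3
import Pool.Agent.Helper91.HE.FING3

/-! Assembly of sheet G3 (even degree). -/

set_option autoImplicit false

namespace Pool.Agent.Helper77.HG3

open Pool.Agent.Helper70.SUB Pool.Agent.Helper70.SUBL Pool.Agent.Helper77.SUBK
  Pool.Agent.Helper70.SUBW Pool.Agent.Helper71.JN Pool.Agent.Helper71.HN
  Pool.Agent.Helper71.HZ Pool.Agent.Helper71.HE Pool.Agent.Helper71.HX Pool.Agent.Helper77.HM

theorem g3_t1 : ST_T1G3 := Pool.Agent.Helper34.HM.T1G3 w_slw u_sph g2_brg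

/-- rational points near sparse numbers or near roots of small polynomials, with costs; all slow
data of height at most `ε * h x` -/
theorem g3_fin : ST_FING3 := Pool.Agent.Helper91.HE.FING3 g3_t1 Pool.Agent.Helper18.HE.SUBE
  Pool.Agent.Helper25.HN.HCO e_htt e_fld Pool.Agent.Helper28.HZ.EMB

end Pool.Agent.Helper77.HG3
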