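import Pool.Agent.Helper77.HE.AsmG
import Pool.Agent.Helper77.HE.Brgg1
import Pool.Agent.Helper77.HE.FlgX
import Pool.Agent.Helper2.HN.LOCA
import Pool.Agent.Helper91.HX.DIV
import Pool.Agent.Helper91.HX.SQR
import Pool.Agent.Helper91.HX.LOCC
import Pool.Agent.Helper72.HX.ALGO
import Pool.Agent.Helper20.HN.T1G1
import Pool.Agent.Helper2.HN.FINX

/-! Assembly of sheet X. -/

set_option autoImplicit false

namespace Pool.Agent.Helper77.HM

open Pool.Agent.Helper70.SUB Pool.Agent.Helper70.SUBL Pool.Agent.Helper77.SUBK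
  Pool.Agent.Helper70.SUBW Pool.Agent.Helper71.JN Pool.Agent.Helper71.HN
  Pool.Agent.Helper71.HZ Pool.Agent.Helper71.HE Pool.Agent.Helper71.HX

theorem x_algo : ST_ALGO := Pool.Agent.Helper72.HX.ALGO Pool.Agent.Helper77.HE.FLG
  (Pool.Agent.Helper2.HX.LOCA Pool.Agent.Helper91.HX.div Pool.Agent.Helper91.HX.sqr)
  (Pool.Agent.Helper91.HX.locc Pool.Agent.Helper91.HX.div)

theorem x_brg : ST_BRGG1 := BRGG1 j_mong j_ssfx j_rdx j_omg j_osr g_tr w_slw (OIC j_omg) x_algo
theorem x_t1 : ST_T1G1 := Pool.Agent.Helper20.HM.T1G1 w_slw u_sph x_brg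
/-- rational points near sparse numbers or near roots of small polynomials, with the optimal
constant -/
theorem x_fin : ST_FING1 := Pool.Agent.Helper2.HX.FING1 x_t1 Pool.Agent.Helper18.HE.SUBE
  Pool.Agent.Helper25.HN.HCO e_htt e_fld Pool.Agent.Helper28.HZ.EMB

end Pool.Agent.Helper77.HM
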