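import Mathlib

/-! Linear algebra of flags: pivots (helper77, after helper71). -/

set_option autoImplicit false

namespace Pool.Agent.Helper77.HE

section
variable {K Ω : Type} [Field K] [Field Ω] [Algebra K Ω] {κ : Type} [Fintype κ]

/-- the pivots, from above -/
theorem flag_aux (v : AbsoluteValue Ω ℝ) (W : ℕ → Submodule K (κ → K))
    (hW : ∀ b, b < Fintype.card κ → Fintype.card κ ≤ Module.finrank K (W b) + b) (j : ℕ)
    (hj : j ≤ Fintype.card κ) : ∃ (T : Finset κ) (ρ : κ → ℕ) (U : κ → κ → K), T.card = j ∧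
      (∀ k ∈ T, Fintype.card κ ≤ ρ k + j ∧ ρ k < Fintype.card κ) ∧
      (∀ k ∈ T, ∀ l ∈ T, ρ k = ρ l → k = l) ∧
      ∀ k ∈ T, U k ∈ W (ρ k) ∧ U k k = 1 ∧ (∀ l, v (algebraMap K Ω (U k l)) ≤ 1) ∧
        ∀ l ∈ T, ρ k < ρ l → U k l = 0 := by
  classical
  induction j with
  | zero => exact ⟨∅, fun _ => 0, fun _ _ => 0, rfl, by simp, by simp, by simp⟩
  | succ j ih =>
    obtain ⟨T, ρ, U, hT, h1, h2, h3⟩ := ih (by omega)
    set n : ℕ := Fintype.card κ with hn
    set b : ℕ := n - (j + 1) with hb
    have hbn : b < n := by omega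
    -- a nonzero vector which vanishes on `T`
    set L : W b →ₗ[K] (T → K) :=
      { toFun := fun u l => (u : κ → K) l
        map_add' := fun a c => rfl
        map_smul' := fun a c => rfl } with hL
    have hdim : Module.finrank K (T → K) < Module.finrank K (W b) := by
      rw [Module.finrank_fintype_fun_eq_card, Fintype.card_coe, hT]
      have := hW b hbn
      omega
    obtain ⟨⟨u, huW⟩, hu, hu0⟩ := Submodule.exists_mem_ne_zero_of_ne_bot
      (LinearMap.ker_ne_bot_of_finrank_lt (f := L) hdim)
    have hu1 : ∀ l ∈ T, u l = 0 := fun l hl => congrFun (LinearMap.mem_ker.1 hu) ⟨l, hl⟩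
    have hu2 : ∃ l, u l ≠ 0 := by
      by_contra hcon
      apply hu0
      apply Subtype.ext
      funext l
      by_contra h
      exact hcon ⟨l, h⟩
    obtain ⟨l₀, hl₀⟩ := hu2
    obtain ⟨k, -, hk⟩ := Finset.exists_max_image Finset.univ
      (fun l => v (algebraMap K Ω (u l))) ⟨l₀, Finset.mem_univ _⟩
    have hk0 : u k ≠ 0 := by
      intro h0
      have h4 := hk l₀ (Finset.mem_univ _)
      rw [h0, map_zero, map_zero] at h4
      have h5 : 0 < v (algebraMap K Ω (u l₀)) := v.pos (by rwa [Ne, map_eq_zero])
      linarith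
    have hkT : k ∉ T := fun h => hk0 (hu1 k h)
    have hvk : 0 < v (algebraMap K Ω (u k)) := v.pos (by rwa [Ne, map_eq_zero])
    refine ⟨insert k T, Function.update ρ k b, Function.update U k ((u k)⁻¹ • u), ?_, ?_, ?_, ?_⟩
    · rw [Finset.card_insert_of_notMem hkT, hT]
    · intro l hl
      rcases Finset.mem_insert.1 hl with h | h
      · rw [h, Function.update_self]
        omega
      · rw [Function.update_of_ne (ne_of_mem_of_not_mem h hkT)]
        have := h1 l h
        omega
    · intro l hl l' hl' hll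
      have key : ∀ l ∈ T, b < ρ l := fun l hl => by
        have := (h1 l hl).1
        omega
      rcases Finset.mem_insert.1 hl with h | h
      · rcases Finset.mem_insert.1 hl' with h' | h'
        · rw [h, h']
        · rw [h, Function.update_self, Function.update_of_ne (ne_of_mem_of_not_mem h' hkT)] at hll
          have := key l' h'
          omega
      · rcases Finset.mem_insert.1 hl' with h' | h'
        · rw [h', Function.update_self, Function.update_of_ne (ne_of_mem_of_not_mem h hkT)] at hll
          have := key l h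
          omega
        · rw [Function.update_of_ne (ne_of_mem_of_not_mem h hkT),
            Function.update_of_ne (ne_of_mem_of_not_mem h' hkT)] at hll
          exact h2 l h l' h' hll
    · intro l hl
      rcases Finset.mem_insert.1 hl with h | h
      · rw [h, Function.update_self, Function.update_self]
        refine ⟨(W b).smul_mem _ huW, ?_, ?_, ?_⟩
        · show (u k)⁻¹ * u k = 1
          exact inv_mul_cancel₀ hk0
        · intro l'
          show v (algebraMap K Ω ((u k)⁻¹ * u l')) ≤ 1
          rw [map_mul, map_mul, map_inv₀, map_inv₀, inv_mul_le_iff₀ hvk, mul_one]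
          exact hk l' (Finset.mem_univ _)
        · intro l' hl' hlt
          rcases Finset.mem_insert.1 hl' with h' | h'
          · rw [h', Function.update_self] at hlt
            exact absurd hlt (lt_irrefl _)
          · show (u k)⁻¹ * u l' = 0
            rw [hu1 l' h', mul_zero]
      · have hlk : l ≠ k := fun h' => hkT (h' ▸ h)
        rw [Function.update_of_ne hlk, Function.update_of_ne hlk]
        obtain ⟨a1, a2, a3, a4⟩ := h3 l h
        refine ⟨a1, a2, a3, ?_⟩
        intro l' hl' hlt
        rcases Finset.mem_insert.1 hl' with h' | h'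
        · rw [h', Function.update_self] at hlt
          have := (h1 l h).1
          omega
        · rw [Function.update_of_ne (ne_of_mem_of_not_mem h' hkT)] at hlt
          exact a4 l' h' hlt

/-- **(FLG)** a family adapted to a flag of subspaces -/
theorem flag (v : AbsoluteValue Ω ℝ) (e : κ → Ω) (W : ℕ → Submodule K (κ → K)) (s : ℕ → ℝ)
    (hW : ∀ b, b < Fintype.card κ → Fintype.card κ ≤ Module.finrank K (W b) + b)
    (hs : ∀ b, b < Fintype.card κ → ∀ u ∈ W b, (∀ k, v (algebraMap K Ω (u k)) ≤ 1) →
      v (∑ k, algebraMap K Ω (u k) * e k) ≤ s b) :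
    ∃ (f : κ → Ω) (ρ : κ → ℕ), Function.Injective ρ ∧ (∀ k, ρ k < Fintype.card κ) ∧
      (∀ k, f k - e k ∈ Submodule.span K (e '' {l | ρ l < ρ k})) ∧ ∀ k, v (f k) ≤ s (ρ k) := by
  classical
  obtain ⟨T, ρ, U, hT, h1, h2, h3⟩ := flag_aux (Ω := Ω) v W hW (Fintype.card κ) le_rfl
  have hTu : T = Finset.univ := (Finset.card_eq_iff_eq_univ T).1 hT
  have hmem : ∀ k, k ∈ T := fun k => hTu ▸ Finset.mem_univ k
  have hinj : Function.Injective ρ := fun k l h => h2 k (hmem k) l (hmem l) h
  refine ⟨fun k => ∑ l, algebraMap K Ω (U k l) * e l, ρ, hinj, fun k => (h1 k (hmem k)).2, ?_, ?_⟩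
  · intro k
    obtain ⟨-, a2, -, a4⟩ := h3 k (hmem k)
    show (∑ l, algebraMap K Ω (U k l) * e l) - e k ∈ _
    rw [← Finset.add_sum_erase Finset.univ _ (Finset.mem_univ k), a2, map_one, one_mul,
      add_sub_cancel_left]
    refine Submodule.sum_mem _ fun l hl => ?_
    have hlk : l ≠ k := (Finset.mem_erase.1 hl).1
    rcases lt_trichotomy (ρ l) (ρ k) with h | h | h
    · rw [← Algebra.smul_def]
      exact Submodule.smul_mem _ _ (Submodule.subset_span ⟨l, h, rfl⟩)
    · exact absurd (hinj h) hlk
    · rw [a4 l (hmem l) h, map_zero, zero_mul]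
      exact Submodule.zero_mem _
  · intro k
    obtain ⟨a1, -, a3, -⟩ := h3 k (hmem k)
    exact hs (ρ k) (h1 k (hmem k)).2 (U k) a1 a3

end

end Pool.Agent.Helper77.HE
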