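import Pool.Agent.Helper71.HN.SheetH
import Pool.Agent.Helper70.JN.Locf
import Pool.Agent.Helper97.JN.BIN

/-! Even degree: the Pade form `A + B y` at one place (`y = x ^ (g + 1) + ...`, monic `f` of degree
`2 g + 2`) and its powers (helper77). -/

set_option autoImplicit false

namespace Pool.Agent.Helper77.HE

open Polynomial Pool.Agent.Helper71.JN Pool.Agent.Helper71.HN
open Pool.Agent.Helper70.JN (v_pow_le v_eq_of_lt)

/-- (PADE) the Pade form: `v (A(x) + B(x) y) ≤ exp ((g - w) lam)` with `deg B ≤ w - g - 1`, `B ≠ 0` -/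
def ST_PADE : Prop := ∀ (F Ω : Type) [Field F] [Field Ω] [CharZero Ω] [Algebra F Ω]
  (v : AbsoluteValue Ω ℝ) (g w : ℕ) (f : F[X]) (lam : ℝ) (x y : Ω), Ul v →
  (∀ c : F, c ≠ 0 → v (algebraMap F Ω c) = 1) → g + 1 ≤ w → f.Monic → f.natDegree = 2 * g + 2 →
  y ^ 2 = aeval x f → 0 < lam → v x = Real.exp lam →
  v (y - x ^ (g + 1)) < Real.exp ((g + 1) * lam) →
  ∃ A B : F[X], B ≠ 0 ∧ B.natDegree + (g + 1) ≤ w ∧
    (A + X ^ (g + 1) * B).degree < ((B.natDegree + (g + 1) : ℕ) : WithBot ℕ) ∧
    v (aeval x A + aeval x B * y) ≤ Real.exp ((g - w) * lam)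

/-- square root of a polynomial modulo a power of `X` -/
theorem sqrt_poly (F : Type) [Field F] [CharZero F] (R : F[X]) (hR : R.coeff 0 = 1) (J : ℕ)
    (hJ : 1 ≤ J) : ∃ S : F[X], S.coeff 0 = 1 ∧ X ^ J ∣ S ^ 2 - R := by
  obtain ⟨p, -, hp, -, ⟨u, hu⟩, -⟩ := Pool.Agent.Helper97.JN.BIN 2 J (by norm_num) hJ
  have hXR : (X : F[X]) ∣ R - 1 := by
    rw [X_dvd_iff, coeff_sub, hR, coeff_one_zero, sub_self]
  refine ⟨(p.map (algebraMap ℚ F)).comp (R - 1), ?_, ?_⟩
  · rw [coeff_zero_eq_eval_zero, eval_comp, eval_sub, ← coeff_zero_eq_eval_zero, hR, eval_one,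
      sub_self, ← coeff_zero_eq_eval_zero, coeff_map, hp, map_one]
  · have h1 : ((p.map (algebraMap ℚ F)).comp (R - 1)) ^ 2 - R =
        (R - 1) ^ J * ((u.map (algebraMap ℚ F)).comp (R - 1)) := by
      have h2 := congrArg (fun q : ℚ[X] => (q.map (algebraMap ℚ F)).comp (R - 1)) hu
      simp only [Polynomial.map_sub, Polynomial.map_pow, Polynomial.map_add, Polynomial.map_one,
        map_X, sub_comp, pow_comp, add_comp, one_comp, X_comp, Polynomial.map_mul, mul_comp] at h2
      rw [← h2]
      ring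
    rw [h1]
    exact (pow_dvd_pow_of_dvd hXR J).mul_right _

/-- the linear algebra of Pade approximation -/
theorem pade_lin (F : Type) [Field F] (S : F[X]) (g w : ℕ) (hw : g + 1 ≤ w) :
    ∃ A B : F[X], B ≠ 0 ∧ B.natDegree ≤ w - (g + 1) ∧ A.natDegree ≤ w ∧
      X ^ (2 * w - g) ∣ A + B * S := by
  classical
  -- the linear map
  set L : degreeLT F (w - g) →ₗ[F] (Fin (w - (g + 1)) → F) :=
    { toFun := fun B i => (S * (B : F[X])).coeff (w + 1 + i)
      map_add' := by
        intro a b
        funext i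
        simp only [Submodule.coe_add, mul_add, coeff_add, Pi.add_apply]
      map_smul' := by
        intro c a
        funext i
        simp only [Submodule.coe_smul, mul_smul_comm, coeff_smul, RingHom.id_apply,
          Pi.smul_apply] } with hL
  have hdim : Module.finrank F (Fin (w - (g + 1)) → F) < Module.finrank F (degreeLT F (w - g)) := by
    rw [Module.finrank_fin_fun, LinearEquiv.finrank_eq (degreeLTEquiv F (w - g)),
      Module.finrank_fin_fun]
    omega
  have hfin : FiniteDimensional F (degreeLT F (w - g)) :=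
    LinearEquiv.finiteDimensional (degreeLTEquiv F (w - g)).symm
  have hker := LinearMap.ker_ne_bot_of_finrank_lt (f := L) hdim
  obtain ⟨b, hb, hb0⟩ := Submodule.exists_mem_ne_zero_of_ne_bot hker
  have hb1 : ∀ i : Fin (w - (g + 1)), (S * (b : F[X])).coeff (w + 1 + i) = 0 := by
    intro i
    have := congrFun (LinearMap.mem_ker.1 hb) i
    exact this
  have hbne : (b : F[X]) ≠ 0 := fun h => hb0 (Subtype.ext h)
  have hmon : (X ^ (w + 1) : F[X]).Monic := monic_X_pow _
  set r : F[X] := (S * (b : F[X])) %ₘ X ^ (w + 1) with hr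
  set q : F[X] := (S * (b : F[X])) /ₘ X ^ (w + 1) with hq
  have hrq : r + X ^ (w + 1) * q = S * (b : F[X]) := modByMonic_add_div _ _
  have hrd : r.natDegree ≤ w := by
    have h1 : r.degree < (X ^ (w + 1) : F[X]).degree := degree_modByMonic_lt _ hmon
    rw [degree_X_pow] at h1
    by_cases h0 : r = 0
    · rw [h0, natDegree_zero]
      exact Nat.zero_le _
    · rw [degree_eq_natDegree h0] at h1
      have : r.natDegree < w + 1 := by exact_mod_cast h1
      omega
  refine ⟨-r, b, hbne, ?_, ?_, ?_⟩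
  · have h1 := mem_degreeLT.1 b.2
    rw [degree_eq_natDegree hbne] at h1
    have : (b : F[X]).natDegree < w - g := by exact_mod_cast h1
    omega
  · rw [natDegree_neg]
    exact hrd
  · have h1 : -r + (b : F[X]) * S = X ^ (w + 1) * q := by
      linear_combination (-1 : F[X]) * hrq
    rw [h1]
    have h2 : (X ^ (w - (g + 1)) : F[X]) ∣ q := by
      rw [X_pow_dvd_iff]
      intro d hd
      have h3 := hb1 ⟨d, hd⟩
      rw [← hrq, coeff_add, coeff_eq_zero_of_natDegree_lt (by
        show r.natDegree < w + 1 + d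
        omega), zero_add] at h3
      have h4 : (X ^ (w + 1) * q).coeff (d + (w + 1)) = q.coeff d := coeff_X_pow_mul q (w + 1) d
      rw [add_comm d] at h4
      rw [← h4]
      exact h3
    have h5 : (X ^ (2 * w - g) : F[X]) = X ^ (w + 1) * X ^ (w - (g + 1)) := by
      rw [← pow_add]
      congr 1
      omega
    rw [h5]
    exact mul_dvd_mul_left _ h2

section
variable {F Ω : Type} [Field F] [Field Ω] [Algebra F Ω]

/-- values of reversed polynomials -/
theorem aeval_refl (P : F[X]) (N : ℕ) (hN : P.natDegree ≤ N) (x : Ω) (hx : x ≠ 0) :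
    aeval x (reflect N P) = x ^ N * aeval x⁻¹ P := by
  have : Invertible x⁻¹ := invertibleOfNonzero (inv_ne_zero hx)
  have h1 := eval₂_reflect_mul_pow (algebraMap F Ω) (x⁻¹) N P hN
  rw [invOf_eq_inv, inv_inv] at h1
  rw [aeval_def, aeval_def, ← h1]
  rw [inv_pow]
  field_simp

/-- polynomials with trivial coefficients at points of the valuation ring -/
theorem aeval_le1 (v : AbsoluteValue Ω ℝ) (hu : ∀ a b, v (a + b) ≤ max (v a) (v b))
    (hF : ∀ c : F, c ≠ 0 → v (algebraMap F Ω c) = 1) (z : Ω) (hz : v z ≤ 1) (P : F[X]) :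
    v (aeval z P) ≤ 1 := by
  induction P using Polynomial.induction_on' with
  | add p q hp hq =>
    rw [map_add]
    exact (hu _ _).trans (max_le hp hq)
  | monomial n a =>
    rw [aeval_monomial, map_mul]
    have h1 : v (algebraMap F Ω a) ≤ 1 := by
      by_cases h0 : a = 0
      · rw [h0, map_zero, map_zero]
        exact zero_le_one
      · exact (hF a h0).le
    calc v (algebraMap F Ω a) * v (z ^ n) ≤ 1 * 1 := by
          refine mul_le_mul h1 ?_ (v.nonneg _) zero_le_one
          have := v_pow_le hz n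
          rwa [one_pow] at this
      _ = 1 := one_mul 1

/-- polynomials with a zero of order `n` -/
theorem aeval_le_pow (v : AbsoluteValue Ω ℝ) (hu : ∀ a b, v (a + b) ≤ max (v a) (v b))
    (hF : ∀ c : F, c ≠ 0 → v (algebraMap F Ω c) = 1) (z : Ω) (hz : v z ≤ 1) (P : F[X]) (n : ℕ)
    (h : X ^ n ∣ P) : v (aeval z P) ≤ v z ^ n := by
  obtain ⟨Q, rfl⟩ := h
  rw [map_mul, map_mul, map_pow, aeval_X, map_pow]
  have h1 := aeval_le1 v hu hF z hz Q
  calc v z ^ n * v (aeval z Q) ≤ v z ^ n * 1 :=
        mul_le_mul_of_nonneg_left h1 (pow_nonneg (v.nonneg _) _)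
    _ = v z ^ n := mul_one _

/-- polynomials of degree less than `n` at large points -/
theorem aeval_large_lt (v : AbsoluteValue Ω ℝ) (hu : ∀ a b, v (a + b) ≤ max (v a) (v b))
    (hF : ∀ c : F, c ≠ 0 → v (algebraMap F Ω c) = 1) (x : Ω) {lam : ℝ} (hl : 0 < lam)
    (hx : v x = Real.exp lam) (n : ℕ) : ∀ P : F[X], P.degree < n →
    v (aeval x P) ≤ Real.exp ((n - 1) * lam) := by
  induction n with
  | zero =>
    intro P hP
    have : P = 0 := by
      rw [← degree_eq_bot]
      by_contra h
      rw [degree_eq_natDegree (fun h0 => h (by rw [h0, degree_zero]))] at hP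
      have : P.natDegree < 0 := by exact_mod_cast hP
      omega
    rw [this, map_zero, map_zero]
    exact (Real.exp_pos _).le
  | succ n ih =>
    intro P hP
    -- remove the leading coefficient
    have h1 : P = C (P.coeff n) * X ^ n + (P - C (P.coeff n) * X ^ n) := by ring
    have h2 : (P - C (P.coeff n) * X ^ n).degree < (n : WithBot ℕ) := by
      rw [degree_lt_iff_coeff_zero]
      intro m hm
      rw [coeff_sub, coeff_C_mul, coeff_X_pow]
      rcases Nat.eq_or_lt_of_le hm with h | h
      · rw [if_pos h.symm, h, mul_one, sub_self]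
      · rw [if_neg h.ne', mul_zero, sub_zero]
        refine coeff_eq_zero_of_degree_lt (lt_of_lt_of_le hP ?_)
        exact_mod_cast h
    have h3 := ih _ h2
    rw [h1, map_add]
    refine (hu _ _).trans (max_le ?_ (h3.trans (Real.exp_le_exp.2 ?_)))
    · rw [map_mul, aeval_C, map_pow, aeval_X, map_mul, map_pow, hx, ← Real.exp_nat_mul]
      have h4 : v (algebraMap F Ω (P.coeff n)) ≤ 1 := by
        by_cases h0 : P.coeff n = 0
        · rw [h0, map_zero, map_zero]
          exact zero_le_one
        · exact (hF _ h0).le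
      calc v (algebraMap F Ω (P.coeff n)) * Real.exp (n * lam) ≤ 1 * Real.exp (n * lam) :=
            mul_le_mul_of_nonneg_right h4 (Real.exp_pos _).le
        _ = Real.exp (((n + 1 : ℕ) - 1) * lam) := by
            rw [one_mul]
            congr 1
            push_cast
            ring
    · push_cast
      nlinarith

/-- the size of a polynomial at a large point -/
theorem aeval_large (v : AbsoluteValue Ω ℝ) (hu : ∀ a b, v (a + b) ≤ max (v a) (v b))
    (hF : ∀ c : F, c ≠ 0 → v (algebraMap F Ω c) = 1) (x : Ω) {lam : ℝ} (hl : 0 < lam)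
    (hx : v x = Real.exp lam) (P : F[X]) (hP : P ≠ 0) :
    v (aeval x P) = Real.exp (P.natDegree * lam) := by
  have h1 : aeval x P = algebraMap F Ω P.leadingCoeff * x ^ P.natDegree +
      aeval x P.eraseLead := by
    conv_lhs => rw [← P.eraseLead_add_C_mul_X_pow]
    rw [map_add, map_mul, aeval_C, map_pow, aeval_X]
    ring
  have h2 : v (algebraMap F Ω P.leadingCoeff * x ^ P.natDegree) =
      Real.exp (P.natDegree * lam) := by
    rw [map_mul, hF _ (leadingCoeff_ne_zero.2 hP), map_pow, hx, ← Real.exp_nat_mul, one_mul]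
  rw [h1, v_eq_of_lt hu, h2]
  rw [h2]
  have h3 : P.eraseLead.degree < P.natDegree := by
    have := degree_eraseLead_lt hP
    rwa [degree_eq_natDegree hP] at this
  refine lt_of_le_of_lt (aeval_large_lt v hu hF x hl hx P.natDegree _ h3) ?_
  rw [Real.exp_lt_exp]
  nlinarith

end

/-- **(PADE)** -/
theorem PADE : ST_PADE := by
  intro F Ω _ _ _ _ v g w f lam x y hv hF hw hfm hfd hcu hl hx hy
  obtain ⟨hu, hq⟩ := hv
  have hch : CharZero F := by
    have : Function.Injective (Nat.cast : ℕ → F) := by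
      intro a b h
      have := congrArg (algebraMap F Ω) h
      rw [map_natCast, map_natCast] at this
      exact_mod_cast this
    exact ⟨this⟩
  have hx0 : x ≠ 0 := by
    intro h
    rw [h, map_zero] at hx
    exact absurd hx (Real.exp_pos _).ne
  have hx1 : 1 < v x := by
    rw [hx]
    exact Real.one_lt_exp_iff.2 hl
  -- the reciprocal polynomial
  set Rv : F[X] := reflect (2 * g + 2) f with hRv
  have hR0 : Rv.coeff 0 = 1 := by
    rw [hRv, coeff_reflect, revAt_le (Nat.zero_le _), Nat.sub_zero, ← hfd]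
    exact hfm.coeff_natDegree
  obtain ⟨S, hS0, hS⟩ := sqrt_poly F Rv hR0 (2 * w - g) (by omega)
  obtain ⟨A₁, B₁, hB0, hBd, hAd, hAB⟩ := pade_lin F S g w hw
  set z : Ω := x⁻¹ with hz
  have hz0 : z ≠ 0 := inv_ne_zero hx0
  have hzx : z⁻¹ = x := inv_inv x
  have hvz : v z = Real.exp (-lam) := by
    rw [hz, map_inv₀, hx, Real.exp_neg]
  have hz1 : v z < 1 := by
    rw [hvz]
    exact Real.exp_lt_one_iff.2 (by linarith)
  have hxz : x * z = 1 := mul_inv_cancel₀ hx0
  have hRz : aeval z Rv = z ^ (2 * g + 2) * aeval x f := by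
    rw [hRv, aeval_refl f (2 * g + 2) hfd.le z hz0, hzx]
  -- the normalised `y`
  set t : Ω := y * z ^ (g + 1) with ht
  set s : Ω := aeval z S with hs
  have hyt : y = t * x ^ (g + 1) := by
    rw [ht, mul_assoc, ← mul_pow, mul_comm z, hxz, one_pow, mul_one]
  have ht1 : v (t - 1) < 1 := by
    have h1 : t - 1 = (y - x ^ (g + 1)) * z ^ (g + 1) := by
      rw [ht, sub_mul, ← mul_pow, hxz, one_pow]
    rw [h1, map_mul, map_pow, hvz, ← Real.exp_nat_mul]
    calc v (y - x ^ (g + 1)) * Real.exp (((g + 1 : ℕ) : ℝ) * -lam)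
        < Real.exp ((g + 1) * lam) * Real.exp (((g + 1 : ℕ) : ℝ) * -lam) :=
          mul_lt_mul_of_pos_right hy (Real.exp_pos _)
      _ = 1 := by
          rw [← Real.exp_add, Real.exp_eq_one_iff]
          push_cast
          ring
  have hs1 : v (s - 1) < 1 := by
    have h1 : (X ^ 1 : F[X]) ∣ S - 1 := by
      rw [pow_one, X_dvd_iff, coeff_sub, hS0, coeff_one_zero, sub_self]
    have h2 := aeval_le_pow v hu hF z hz1.le _ 1 h1
    rw [map_sub, map_one, pow_one] at h2
    exact lt_of_le_of_lt h2 hz1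
  have h2 : v (2 : Ω) = 1 := by
    have := hq 2 (by norm_num)
    exact_mod_cast this
  have hts : v (t + s) = 1 := by
    have h1 : t + s = 2 + ((t - 1) + (s - 1)) := by ring
    rw [h1, v_eq_of_lt hu, h2]
    rw [h2]
    exact lt_of_le_of_lt (hu _ _) (max_lt ht1 hs1)
  have hdiff : v (t - s) ≤ v z ^ (2 * w - g) := by
    have h3 := aeval_le_pow v hu hF z hz1.le _ _ hS
    have h4 : aeval z (S ^ 2 - Rv) = -((t - s) * (t + s)) := by
      rw [map_sub, map_pow, hRz, ← hcu, ht, ← hs]
      ring
    rw [h4, v.map_neg, map_mul, hts, mul_one] at h3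
    exact h3
  -- the form
  set A : F[X] := reflect w A₁ with hA
  set B : F[X] := reflect (w - (g + 1)) B₁ with hB
  have hBne : B ≠ 0 := fun h => hB0 (reflect_eq_zero_iff.1 h)
  have hBdeg : B.natDegree + (g + 1) ≤ w := by
    have h3 : B.natDegree ≤ max (w - (g + 1)) B₁.natDegree := natDegree_reflect_le
    have h4 := h3.trans (max_le le_rfl hBd)
    omega
  have hform : v (aeval x A + aeval x B * y) ≤ Real.exp ((g - w) * lam) := by
    have h3 : aeval x A + aeval x B * y =
        x ^ w * (aeval z (A₁ + B₁ * S) + aeval z B₁ * (t - s)) := by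
      have e1 : x ^ w = x ^ (w - (g + 1)) * x ^ (g + 1) := by
        rw [← pow_add, Nat.sub_add_cancel hw]
      rw [hA, hB, aeval_refl A₁ w hAd x hx0, aeval_refl B₁ (w - (g + 1)) hBd x hx0, ← hz, hyt,
        map_add, map_mul, ← hs]
      linear_combination (-(aeval z B₁ * t)) * e1
    rw [h3, map_mul, map_pow, hx]
    have h4 : v (aeval z (A₁ + B₁ * S) + aeval z B₁ * (t - s)) ≤ v z ^ (2 * w - g) := by
      refine (hu _ _).trans (max_le (aeval_le_pow v hu hF z hz1.le _ _ hAB) ?_)
      rw [map_mul]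
      calc v (aeval z B₁) * v (t - s) ≤ 1 * v z ^ (2 * w - g) :=
            mul_le_mul (aeval_le1 v hu hF z hz1.le B₁) hdiff (v.nonneg _) zero_le_one
        _ = v z ^ (2 * w - g) := one_mul _
    calc Real.exp lam ^ w * v (aeval z (A₁ + B₁ * S) + aeval z B₁ * (t - s))
        ≤ Real.exp lam ^ w * v z ^ (2 * w - g) :=
          mul_le_mul_of_nonneg_left h4 (by positivity)
      _ = Real.exp ((g - w) * lam) := by
          rw [hvz, ← Real.exp_nat_mul, ← Real.exp_nat_mul, ← Real.exp_add]
          congr 1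
          rw [Nat.cast_sub (by omega)]
          push_cast
          ring
  refine ⟨A, B, hBne, hBdeg, ?_, hform⟩
  -- the degree
  by_cases hQ : A + X ^ (g + 1) * B = 0
  · rw [hQ, degree_zero]
    exact WithBot.bot_lt_coe _
  rw [degree_eq_natDegree hQ]
  have h3 := aeval_large v hu hF x hl hx _ hQ
  have h4 := aeval_large v hu hF x hl hx _ hBne
  have h5 : aeval x (A + X ^ (g + 1) * B) =
      (aeval x A + aeval x B * y) + -(aeval x B * (y - x ^ (g + 1))) := by
    rw [map_add, map_mul, map_pow, aeval_X]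
    ring
  have h6 : v (aeval x (A + X ^ (g + 1) * B)) <
      Real.exp (((B.natDegree + (g + 1) : ℕ) : ℝ) * lam) := by
    rw [h5]
    refine lt_of_le_of_lt (hu _ _) (max_lt (lt_of_le_of_lt hform ?_) ?_)
    · rw [Real.exp_lt_exp]
      have h7 : ((g : ℝ) - w) < ((B.natDegree + (g + 1) : ℕ) : ℝ) := by
        have h8 : (g : ℝ) + 1 ≤ w := by exact_mod_cast hw
        have h9 : (0 : ℝ) ≤ ((B.natDegree + (g + 1) : ℕ) : ℝ) := Nat.cast_nonneg _
        linarith
      exact mul_lt_mul_of_pos_right h7 hl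
    · rw [v.map_neg, map_mul, h4]
      calc Real.exp (B.natDegree * lam) * v (y - x ^ (g + 1))
          < Real.exp (B.natDegree * lam) * Real.exp ((g + 1) * lam) :=
            mul_lt_mul_of_pos_left hy (Real.exp_pos _)
        _ = Real.exp (((B.natDegree + (g + 1) : ℕ) : ℝ) * lam) := by
            rw [← Real.exp_add]
            congr 1
            push_cast
            ring
  rw [h3, Real.exp_lt_exp] at h6
  have h7 : (((A + X ^ (g + 1) * B).natDegree : ℕ) : ℝ) < ((B.natDegree + (g + 1) : ℕ) : ℝ) :=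
    lt_of_mul_lt_mul_right h6 hl.le
  exact_mod_cast h7

end Pool.Agent.Helper77.HE
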