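import Pool.Agent.Helper71.HN.SheetP
import Pool.Agent.Helper77.HE.SheetG2

/-!
Project HP2 (MP_2a8cc2_nt): sheet P (odd degree) with costs `s`, as sheet G2: at a place where `x` is
large and near `R ^ 2` the cost may be negative. -/

set_option autoImplicit false

namespace Pool.Agent.Helper77.HP2

open Polynomial Filter Finset Pool.Agent.Helper70.SUB Pool.Agent.Helper77.SUBK
  Pool.Agent.Helper70.SUBL Pool.Agent.Helper70.SUBW Pool.Agent.Helper71.JN Pool.Agent.Helper71.HN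
  Pool.Agent.Helper71.HZ Pool.Agent.Helper71.HE Pool.Agent.Helper71.HO Pool.Agent.Helper77.HE
  Pool.Agent.Helper77.HM Pool.Agent.Helper71.HX Pool.Agent.Helper71.HP

/-- (SQO2) `ST_SQO`, last item without `0 ≤ c`:
`v (T₁ - 1/R) ≤ max (exp (- (J + 1) lam)) (exp (c - 3 lam))` -/
def ST_SQO2 : Prop := ∀ (F Ω : Type) [Field F] [Field Ω] [CharZero Ω] [Algebra F Ω]
  (v : AbsoluteValue Ω ℝ) (g J : ℕ) (f : F[X]) (lam : ℝ) (x y : Ω), Ul v →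
  (∀ c : F, c ≠ 0 → v (algebraMap F Ω c) = 1) → f.Monic → f.natDegree = 2 * g + 1 →
  y ^ 2 = aeval x f → 0 < lam → v x = Real.exp (2 * lam) → 2 ≤ J →
  ∃ (φ : F[X]) (T₁ : Ω), v T₁ = Real.exp (-lam) ∧ v (x * T₁ ^ 2 - 1) ≤ Real.exp (-(J * lam)) ∧
    v (y * T₁ ^ (2 * g + 1) - aeval (T₁ ^ 2) φ) ≤ Real.exp (-(J * lam)) ∧
    ∀ (R : Ω) (c : ℝ), 2 * lam - c ≤ J * lam → c < 2 * lam → v R = Real.exp lam →
      v (x - R ^ 2) ≤ Real.exp c → v (y - R ^ (2 * g + 1)) < Real.exp ((2 * g + 1) * lam) →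
      v (T₁ - R⁻¹) ≤ Real.exp (c - 3 * lam)

/-- (LOCO2) `ST_LOCO` without `0 ≤ c` -/
def ST_LOCO2 : Prop := ∀ (F Ω : Type) [Field F] [Field Ω] [CharZero Ω] [Algebra F Ω]
  (K : IntermediateField F Ω) (v : AbsoluteValue Ω ℝ) (g N J : ℕ) (φ : F[X]) (lam c : ℝ)
  (x y t₀ T₁ : Ω), Ul v → (∀ c : F, c ≠ 0 → v (algebraMap F Ω c) = 1) → 0 < lam →
  v x = Real.exp (2 * lam) → v T₁ = Real.exp (-lam) →
  ((2 * N + g + 1 : ℕ) : ℝ) * (3 * lam - c) ≤ J * lam →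
  v (x * T₁ ^ 2 - 1) ≤ Real.exp (-(J * lam)) →
  v (y * T₁ ^ (2 * g + 1) - aeval (T₁ ^ 2) φ) ≤ Real.exp (-(J * lam)) → t₀ ∈ K →
  v t₀ ≤ 1 → c ≤ 2 * lam → v (T₁ - t₀) ≤ Real.exp (c - 3 * lam) →
  ∃ W : ℕ → Submodule K ((Fin (N + g + 1) ⊕ Fin N) → K),
    (∀ b, b < 2 * N + g + 1 → 2 * N + g + 1 ≤ Module.finrank K (W b) + b) ∧
    ∀ b, b < 2 * N + g + 1 → ∀ u ∈ W b, (∀ k, v (u k : Ω) ≤ 1) →
      v (∑ k, (u k : Ω) * eE x y (N + g + 1) N k) ≤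
        Real.exp (2 * (N + g) * lam + b * (c - 3 * lam))

/-- (ALGP2) `ST_ALGP` with costs `s i` (SQO2, LOCO2 with a large `J` at the pole places near `R ^ 2`
with `s i < 2 lam i`, `s i` may be negative; FLG, LOCD, IND as before) -/
def ST_ALGP2 : Prop := ∀ (F Ω : Type) [Field F] [Field Ω] [CharZero Ω] [Algebra F Ω] (I : Type)
  [Fintype I] (r : ℕ) (D : SSF F Ω I r) (K : IntermediateField F Ω) (_ : GSKP D K) (g : ℕ)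
  (f : F[X]) (m x y : Ω) (s : I → ℝ), f.Monic → f.natDegree = 2 * g + 1 → f.Separable → m ≠ 0 →
  m ∈ D.O → m * x ∈ D.O → m ^ (g + 1) * y ∈ D.O → y ^ 2 = aeval x f →
  (∀ i, ((0 ≤ s i ∨ 1 < D.nu i x) ∧ ∃ R ∈ K, D.nu i (x - R ^ 2) ≤ Real.exp (s i)) ∨
    ∃ G : F[X], G.Monic ∧ 1 ≤ G.natDegree ∧
      D.nu i (aeval x G) ≤ Real.exp (G.natDegree * min (s i) (2 * s i))) →
  ∑ i, Real.log (D.nu i m) + ∑ i, s i < 1 / 2 * ∑ i, Real.log (max 1 (D.nu i x)) →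
  IsIntegral K x

/-- the hypotheses of the abstract theorem -/
structure HP2 {F Ω : Type} [Field F] [Field Ω] [Algebra F Ω] {I : Type} [Fintype I] {r : ℕ}
    (D : SSF F Ω I r) (g : ℕ) (f : F[X]) (m x y : Ω) (s : I → ℝ) : Prop where
  hg : 1 ≤ g
  fm : f.Monic
  fd : f.natDegree = 2 * g + 1
  fs : f.Separable
  ic : ∀ z : Ω, IsIntegral D.R z → z ∈ D.O
  m0 : m ≠ 0
  mO : m ∈ D.O
  xO : m * x ∈ D.O
  yO : m ^ (g + 1) * y ∈ D.O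
  cu : y ^ 2 = aeval x f
  nx : ¬ IsIntegral F x
  near : ∀ i, ((0 ≤ s i ∨ 1 < D.nu i x) ∧
    ∃ R ∈ D.K, D.nu i (x - R ^ 2) ≤ Real.exp (s i)) ∨
    ∃ G : F[X], G.Monic ∧ 1 ≤ G.natDegree ∧
      D.nu i (aeval x G) ≤ Real.exp (G.natDegree * min (s i) (2 * s i))
  main : ∑ i, Real.log (D.nu i m) + ∑ i, s i < 1 / 2 * ∑ i, Real.log (max 1 (D.nu i x))

/-- **(HEARTP2)** -/
theorem HEARTP2 (hALGP : ST_ALGP2) (hTRP : ST_TRP) {F Ω : Type} [Field F] [Field Ω] [CharZero Ω]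
    [Algebra F Ω] {I : Type} [Fintype I] {r : ℕ} (D : SSF F Ω I r) (g : ℕ) (f : F[X]) (m x y : Ω)
    (s : I → ℝ) (H : HP2 D g f m x y s) : False := by
  classical
  by_cases h1 : ∃ i, ∃ R ∈ D.K, 1 < D.nu i x ∧ D.nu i (x - R ^ 2) < D.nu i x
  · obtain ⟨i₀, R, hR, h2, h3⟩ := h1
    exact hTRP F Ω I r D g f x y i₀ R
      { hg := H.hg
        fm := H.fm
        fd := H.fd
        fs := H.fs
        ic := H.ic
        cu := H.cu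
        RR := hR
        x1 := h2
        xR := h3 } (hALGP F Ω I r D D.K (gskK D) g f m x y s H.fm H.fd H.fs H.m0 H.mO H.xO
          H.yO H.cu H.near H.main)
  · have h2 : ∀ i, ∀ R ∈ D.K, 1 < D.nu i x → D.nu i x ≤ D.nu i (x - R ^ 2) := by
      intro i R hR hi
      by_contra h3
      exact h1 ⟨i, R, hR, hi, not_le.1 h3⟩
    have hG : ∀ i, ∃ s' : ℝ, (((0 ≤ s' ∨ 1 < D.nu i x) ∧ ∃ R ∈ (⊥ : IntermediateField F Ω),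
        D.nu i (x - R ^ 2) ≤ Real.exp s') ∨ ∃ G : F[X], G.Monic ∧ 1 ≤ G.natDegree ∧
        D.nu i (aeval x G) ≤ Real.exp (G.natDegree * min s' (2 * s'))) ∧ s' ≤ s i := by
      intro i
      rcases H.near i with ⟨h0, R, hR, h4⟩ | h4
      · refine ⟨Real.log (max (D.nu i x) 1), Or.inl ⟨Or.inl (Real.log_nonneg (le_max_right _ _)),
          0, zero_mem _, ?_⟩, ?_⟩
        · rw [zero_pow two_ne_zero, sub_zero,
            Real.exp_log (lt_of_lt_of_le one_pos (le_max_right _ _))]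
          exact le_max_left _ _
        · rcases le_or_gt (D.nu i x) 1 with h5 | h5
          · rw [max_eq_right h5, Real.log_one]
            rcases h0 with h0 | h0
            · exact h0
            · exact absurd h0 (not_lt.2 h5)
          · rw [max_eq_left h5.le, Real.log_le_iff_le_exp (by linarith)]
            exact (h2 i R hR h5).trans h4
      · exact ⟨s i, Or.inr h4, le_rfl⟩
    choose s' hG hs' using hG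
    have hx : IsIntegral (⊥ : IntermediateField F Ω) x := by
      refine hALGP F Ω I r D ⊥ (gskF D) g f m x y s' H.fm H.fd H.fs H.m0 H.mO H.xO H.yO H.cu hG ?_
      have h3 : ∑ i, s' i ≤ ∑ i, s i := Finset.sum_le_sum fun i _ => hs' i
      linarith [H.main]
    exact H.nx (int_bot hx)

/-- (BRGP2) as `ST_BRGP` with costs (as `Helper77.HM.BRGG2`) -/
def ST_BRGP2 : Prop := ∀ (M : Type) [Field M] [NumberField M] [IsGalois ℚ M] (S S₀ : Finset ℕ)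
  (P : PF S M) (φ : Ultrafilter ℕ) (k : Option ℕ → (M ≃ₐ[ℚ] M) → ℕ) (g : ℕ) (a : ℕ → ℕ → M)
  (m : ℕ → ℕ) (x y : ℕ → M) (X : ℕ → ℝ) (p q : Option ℕ → (M ≃ₐ[ℚ] M) → ℕ → M)
  (e : Option ℕ → (M ≃ₐ[ℚ] M) → ℕ → ℕ → M)
  (s : Option ℕ → (M ≃ₐ[ℚ] M) → ℕ → ℝ) (A η θ : ℝ), (∀ p ∈ S, p.Prime) →
  S₀ ⊆ S → 1 ≤ g → 0 < η → 0 < θ → Tendsto X (φ : Filter ℕ) atTop →
  (∀ o ∈ plc S₀, ∀ σ, k o σ = 0 → SpM P φ X (p o σ) ∧ SpM P φ X (q o σ)) →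
  (∀ o ∈ plc S₀, ∀ σ, 1 ≤ k o σ → ∀ i, i < k o σ → Slw P φ X (e o σ i)) →
  (∀ i, i < 2 * g + 1 → Slw P φ X (a i)) → IntT S₀ φ X (fun j => (m j : M) * x j) →
  IntT S₀ φ X (fun j => (m j : M) ^ (g + 1) * y j) → ¬ Slw P φ X x →
  (∀ᶠ j in (φ : Filter ℕ), (polR M g (fun i => a i j)).Separable ∧
    y j ^ 2 = (polR M g (fun i => a i j)).eval (x j) ∧ m j ≠ 0 ∧
    (m j : ℝ) ≤ X j ^ A ∧
    (∀ o ∈ plc S, ∀ σ : M ≃ₐ[ℚ] M, P.nv o (σ (x j)) ≤ X j ^ A) ∧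
    (∀ o ∈ plc S₀, ∀ σ : M ≃ₐ[ℚ] M, -(A * Real.log (X j)) ≤ s o σ j ∧
      (1 ≤ k o σ → P.nv o (σ ((polD M (k o σ) (fun i => e o σ i j)).eval (x j))) ≤
        Real.exp (k o σ * min (s o σ j) (2 * s o σ j))) ∧
      (k o σ = 0 → (0 ≤ s o σ j ∨ X j ^ θ ≤ P.nv o (σ (x j))) ∧ q o σ j ≠ 0 ∧
        P.nv o (σ (x j - (p o σ j / q o σ j) ^ 2)) ≤ Real.exp (s o σ j))) ∧
    (Fintype.card (M ≃ₐ[ℚ] M) : ℝ) * Real.log (m j) +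
      ∑ o ∈ plc S₀, ∑ σ : M ≃ₐ[ℚ] M, s o σ j + η * Real.log (X j) ≤
      1 / 2 * ∑ o ∈ plc S₀, ∑ σ : M ≃ₐ[ℚ] M, Real.log (max 1 (P.nv o (σ (x j))))) → False

/-- (T1P2) as `ST_T1P` with costs: `x' = x / a₀`, `s' = s + l`, `l = log (max 1 |1/a₀|)` (slow), and
`exp (θ T) ≤ |x|` gives `exp (θ T / 2) ≤ |x'|` for large `T / (H + 1)` -/
def ST_T1P2 : Prop := ∀ (M : Type) [Field M] [NumberField M] [IsGalois ℚ M] (S S₀ : Finset ℕ)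
  (P : PF S M) (k : Option ℕ → (M ≃ₐ[ℚ] M) → ℕ) (t g : ℕ) (κ δ θ B : ℝ), (∀ p ∈ S, p.Prime) →
  S₀ ⊆ S → 1 ≤ g → 0 < δ → 0 < θ → 0 < B →
  ∃ C : ℝ, 0 < C ∧ ∀ (F : M[X]) (x y : M) (H T : ℝ) (m : ℕ)
    (c d a b : Option ℕ → (M ≃ₐ[ℚ] M) → Fin t → M) (e : Option ℕ → (M ≃ₐ[ℚ] M) → ℕ → M)
    (s : Option ℕ → (M ≃ₐ[ℚ] M) → ℝ), 0 ≤ H → F.natDegree = 2 * g + 1 → F.Separable →
    y ^ 2 = F.eval x →
    (∀ i, HBZ P.emb (Real.exp (κ * (H + 1))) (F.coeff i)) → m ≠ 0 → SI S₀ ((m : M) * x) →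
    (m : ℝ) ≤ Real.exp (B * T) →
    (∀ o ∈ plc S, ∀ σ : M ≃ₐ[ℚ] M, P.nv o (σ x) ≤ Real.exp (B * T)) →
    ¬ HBZ P.emb (Real.exp (T / B)) x →
    (∀ o ∈ plc S₀, ∀ σ, -(B * T) ≤ s o σ ∧
      (1 ≤ k o σ → (∀ i, HBZ P.emb (Real.exp (κ * (H + 1))) (e o σ i)) ∧
        P.nv o (σ ((polD M (k o σ) (e o σ)).eval x)) ≤
          Real.exp (k o σ * min (s o σ) (2 * s o σ))) ∧
      (k o σ = 0 → (0 ≤ s o σ ∨ Real.exp (θ * T) ≤ P.nv o (σ x)) ∧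
        (∀ i, SV S (a o σ i)) ∧ (∀ i, SV S (b o σ i)) ∧
        (∀ i, HBZ P.emb (Real.exp (κ * (H + 1))) (c o σ i)) ∧
        (∀ i, HBZ P.emb (Real.exp (κ * (H + 1))) (d o σ i)) ∧
        HBZ P.emb (Real.exp (B * T)) (∑ i, c o σ i * a o σ i) ∧
        HBZ P.emb (Real.exp (B * T)) (∑ i, d o σ i * b o σ i) ∧
        ∑ i, d o σ i * b o σ i ≠ 0 ∧
        P.nv o (σ (x - F.coeff (2 * g + 1) *
          ((∑ i, c o σ i * a o σ i) / ∑ i, d o σ i * b o σ i) ^ 2)) ≤ Real.exp (s o σ))) →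
    (Fintype.card (M ≃ₐ[ℚ] M) : ℝ) * Real.log m +
      ∑ o ∈ plc S₀, ∑ σ : M ≃ₐ[ℚ] M, s o σ + δ * T ≤
      1 / 2 * ∑ o ∈ plc S₀, ∑ σ : M ≃ₐ[ℚ] M, Real.log (max 1 (P.nv o (σ x))) →
    T ≤ C * (H + 1)

/-- as `NearG2` with `c (p / q) ^ 2` -/
def NearP2 {K : Type} [Field K] (h : K → ℝ) (Γ : Subgroup Kˣ) (t n : ℕ) (L N E : ℝ)
    (w : ℕ → AbsoluteValue ℂ ℝ) (c z : K) (o : Option ℕ) (τ : K →+* ℂ) (s : ℝ) : Prop :=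
  (∃ G : K[X], G.Monic ∧ 1 ≤ G.natDegree ∧ G.natDegree ≤ n ∧ (∀ i, h (G.coeff i) ≤ L) ∧
    pv w o (τ (G.eval z)) ≤ Real.exp (G.natDegree * min s (2 * s))) ∨
  ((0 ≤ s ∨ Real.exp E ≤ pv w o (τ z)) ∧ ∃ p q : K, SumOf h Γ t L p ∧ SumOf h Γ t L q ∧
    h p ≤ N ∧ h q ≤ N ∧ q ≠ 0 ∧ pv w o (τ (z - c * (p / q) ^ 2)) ≤ Real.exp s)

/-- (FINP2) the final theorem, as `ST_FINP` -/
def ST_FINP2 : Prop := ∀ (K : Type) [Field K] [NumberField K] (h : K → ℝ), IsHt K h →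
  ∀ (S : Finset ℕ) (w : ℕ → AbsoluteValue ℂ ℝ), Ext S w →
  ∀ (Γ : Subgroup Kˣ) (t n d : ℕ) (κ δ B : ℝ), Γ.FG → 3 ≤ d → 0 < δ →
    ∃ C₁ C₂ : ℝ, 0 < C₁ ∧ 0 < C₂ ∧ ∀ F : K[X], F.natDegree = d → F.Separable →
      ∀ x y : K, y ^ 2 = F.eval x → ∀ H : ℝ, (∀ i, h (F.coeff i) ≤ H) →
        ∀ z c : K, ((Odd d ∧ x = z ∧ c = F.coeff d) ∨
          ∃ e : K, h e ≤ κ * (H + 1) ∧ F.eval e = 0 ∧ z ≠ 0 ∧ x = e + 1 / z ∧
            c = F.derivative.eval e) →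
        ∀ (m : ℕ) (s : Option ℕ → (K →+* ℂ) → ℝ), m ≠ 0 → SI S ((m : K) * z) →
          (∀ o ∈ plc S, ∀ τ, -(B * h x) ≤ s o τ ∧
            NearP2 h Γ t n (κ * (H + 1)) (B * h x) (δ * h x) w c z o τ (s o τ)) →
          (Module.finrank ℚ K : ℝ) * Real.log m +
            ∑ o ∈ plc S, ∑ τ : K →+* ℂ, s o τ + δ * h x ≤
            1 / 2 * ∑ o ∈ plc S, ∑ τ : K →+* ℂ, Real.log (max 1 (pv w o (τ z))) →
          h x ≤ C₁ * H + C₂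

end Pool.Agent.Helper77.HP2
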